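import Mathlib

/-!
# The solutions of `φ(σ(n)) = n` are very sparse

The number of solutions `n ≤ x` is at most `exp (130 log x / log log x)`.

Structure: let `R` be a finite set containing all primes `≤ 2 w`, where `x < (2 w) ^ w`, and let
`m` be the part of the solution `n ≤ x` composed of primes in `R`. If all prime factors of
`σ(m) φ(σ(m))` lie in `R` then `m = n`. So `n` can be reconstructed from its `2 w`-smooth part
and a short list of exponents.
-/

set_option autoImplicit false

open Finset ArithmeticFunction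

namespace Pool.Agent.Results.MP_ed2bed_nt.CountingBound

/-! ### The part of a number composed of primes of a finite set -/

/-- the part of `n` composed of the primes in `R` -/
def prt (R : Finset ℕ) (n : ℕ) : ℕ := ∏ p ∈ R, p ^ n.factorization p

/-- the complementary part -/
def cop (R : Finset ℕ) (n : ℕ) : ℕ := ∏ p ∈ n.primeFactors \ R, p ^ n.factorization p

theorem prt_eq (R : Finset ℕ) (n : ℕ) :
    prt R n = ∏ p ∈ n.primeFactors ∩ R, p ^ n.factorization p := by
  unfold prt
  symm
  apply Finset.prod_subset Finset.inter_subset_right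
  intro p hp hp'
  have h1 : p ∉ n.primeFactors := fun h => hp' (Finset.mem_inter.2 ⟨h, hp⟩)
  rw [← Nat.support_factorization, Finsupp.notMem_support_iff] at h1
  rw [h1, pow_zero]

theorem prt_mul_cop (R : Finset ℕ) {n : ℕ} (hn : n ≠ 0) : prt R n * cop R n = n := by
  rw [prt_eq, cop, Finset.prod_inter_mul_prod_sdiff]
  exact Nat.prod_factorization_pow_eq_self hn

theorem coprime_prt_cop (R : Finset ℕ) (n : ℕ) : Nat.Coprime (prt R n) (cop R n) := by
  rw [prt_eq, cop]
  apply Nat.Coprime.prod_left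
  intro p hp
  apply Nat.Coprime.prod_right
  intro q hq
  rw [Finset.mem_inter] at hp
  rw [Finset.mem_sdiff] at hq
  apply Nat.Coprime.pow
  rw [Nat.coprime_primes (Nat.prime_of_mem_primeFactors hp.1) (Nat.prime_of_mem_primeFactors hq.1)]
  rintro rfl
  exact hq.2 hp.2

theorem prt_insert (R : Finset ℕ) (n p : ℕ) (hp : p ∉ R) :
    prt (insert p R) n = p ^ n.factorization p * prt R n := by
  unfold prt
  rw [Finset.prod_insert hp]

/-! ### The abundancy of numbers with large prime factors -/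

theorem sigma_prime_pow_mul_le (p z : ℕ) (hp : p.Prime) (hz : z < p) (a : ℕ) :
    sigma 1 (p ^ a) * z ≤ p ^ a * (z + 1) := by
  rw [sigma_one_apply_prime_pow hp]
  induction a with
  | zero => simp
  | succ a ih =>
    rw [Finset.sum_range_succ, add_mul]
    have h1 : p ^ a * (z + 1) ≤ p ^ (a + 1) := by
      rw [pow_succ]
      exact Nat.mul_le_mul_left _ hz
    calc (∑ k ∈ range (a + 1), p ^ k) * z + p ^ (a + 1) * z
        ≤ p ^ a * (z + 1) + p ^ (a + 1) * z := Nat.add_le_add_right ih _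
      _ ≤ p ^ (a + 1) + p ^ (a + 1) * z := Nat.add_le_add_right h1 _
      _ = p ^ (a + 1) * (z + 1) := by ring

theorem sigma_mul_pow_le (m z : ℕ) (hm : m ≠ 0) (hz : ∀ p ∈ m.primeFactors, z < p) :
    sigma 1 m * z ^ m.primeFactors.card ≤ m * (z + 1) ^ m.primeFactors.card := by
  have h1 : sigma 1 m = ∏ p ∈ m.primeFactors, sigma 1 (p ^ m.factorization p) := by
    rw [isMultiplicative_sigma.multiplicative_factorization (sigma 1) hm]
    rfl
  have h2 : m = ∏ p ∈ m.primeFactors, p ^ m.factorization p :=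
    (Nat.prod_factorization_pow_eq_self hm).symm
  rw [h1, ← Finset.prod_const, ← Finset.prod_const, ← Finset.prod_mul_distrib]
  conv_rhs => rw [h2]
  have h3 : (∏ p ∈ m.primeFactors, p ^ m.factorization p).primeFactors = m.primeFactors := by
    rw [← h2]
  rw [h3, ← Finset.prod_mul_distrib]
  apply Finset.prod_le_prod'
  intro p hp
  exact sigma_prime_pow_mul_le p z (Nat.prime_of_mem_primeFactors hp) (hz p hp) _

theorem pow_lt_two_mul (z k : ℕ) (hk : 2 * k ≤ z) : (z + 1) ^ k < 2 * z ^ k := by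
  have hz1 : (0 : ℝ) < (z : ℝ) + 1 := by positivity
  have h1 := one_add_mul_le_pow (a := -1 / ((z : ℝ) + 1)) (by
    rw [neg_div, neg_le_neg_iff, div_le_iff₀ hz1]
    have : (0 : ℝ) ≤ z := Nat.cast_nonneg z
    linarith) k
  have h2 : 1 + -1 / ((z : ℝ) + 1) = z / (z + 1) := by field_simp; ring
  rw [h2, div_pow] at h1
  have h3 : (1 : ℝ) / 2 < 1 + k * (-1 / ((z : ℝ) + 1)) := by
    have h4 : (k : ℝ) / (z + 1) < 1 / 2 := by
      rw [div_lt_iff₀ hz1]
      have : (2 : ℝ) * k ≤ z := by exact_mod_cast hk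
      linarith
    have h5 : (k : ℝ) * (-1 / ((z : ℝ) + 1)) = - (k / (z + 1)) := by ring
    rw [h5]
    linarith
  have h6 : (1 : ℝ) / 2 < (z : ℝ) ^ k / ((z : ℝ) + 1) ^ k := lt_of_lt_of_le h3 h1
  rw [lt_div_iff₀ (by positivity)] at h6
  have h7 : ((z : ℝ) + 1) ^ k < 2 * (z : ℝ) ^ k := by linarith
  exact_mod_cast h7

theorem sigma_lt_two_mul (m z : ℕ) (hm : m ≠ 0) (hz : ∀ p ∈ m.primeFactors, z < p)
    (hk : 2 * m.primeFactors.card ≤ z) : sigma 1 m < 2 * m := by
  have h1 := sigma_mul_pow_le m z hm hz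
  have h2 := pow_lt_two_mul z _ hk
  have h3 : sigma 1 m * z ^ m.primeFactors.card < 2 * m * z ^ m.primeFactors.card := by
    calc sigma 1 m * z ^ m.primeFactors.card ≤ m * (z + 1) ^ m.primeFactors.card := h1
      _ < m * (2 * z ^ m.primeFactors.card) := Nat.mul_lt_mul_of_pos_left h2 (Nat.pos_of_ne_zero hm)
      _ = 2 * m * z ^ m.primeFactors.card := by ring
  exact lt_of_mul_lt_mul_right h3 (Nat.zero_le _)

/-! ### The structural statement -/

/-- the set of primes that come from `m` -/
def qs (m : ℕ) : Finset ℕ := (sigma 1 m * Nat.totient (sigma 1 m)).primeFactors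

theorem sigma_pos' {n : ℕ} (hn : n ≠ 0) : 0 < sigma 1 n := by
  rw [sigma_one_apply]
  exact Finset.sum_pos (fun d hd => Nat.pos_of_mem_divisors hd) ⟨1, Nat.one_mem_divisors.2 hn⟩

theorem le_sigma {n : ℕ} (hn : n ≠ 0) : n ≤ sigma 1 n := by
  rw [sigma_one_apply]
  exact Finset.single_le_sum (f := fun d => d) (fun _ _ => Nat.zero_le _)
    (Nat.mem_divisors_self n hn)

theorem structure_thm (x w n : ℕ) (hw : 1 ≤ w) (hx : x < (2 * w) ^ w) (hn0 : n ≠ 0) (hn : n ≤ x)
    (hsol : Nat.totient (sigma 1 n) = n) (R : Finset ℕ)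
    (hR : ∀ p, p.Prime → p ≤ 2 * w → p ∈ R) (hQ : qs (prt R n) ⊆ R) : prt R n = n := by
  set m := prt R n with hm
  set m' := cop R n with hm'
  have hmm : m * m' = n := prt_mul_cop R hn0
  have hco : Nat.Coprime m m' := coprime_prt_cop R n
  have hm0 : m ≠ 0 := by rintro h; rw [h, zero_mul] at hmm; exact hn0 hmm.symm
  have hm'0 : m' ≠ 0 := by rintro h; rw [h, mul_zero] at hmm; exact hn0 hmm.symm
  set s := sigma 1 m with hs
  set s' := sigma 1 m' with hs'
  have hs0 : 0 < s := sigma_pos' hm0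
  have hs'0 : 0 < s' := sigma_pos' hm'0
  have hss : sigma 1 n = s * s' := by
    rw [← hmm, isMultiplicative_sigma.map_mul_of_coprime hco]
  -- the prime powers of `m'` divide `φ(s')`
  have hdvd : ∀ p ∈ n.primeFactors \ R, p ^ n.factorization p ∣ Nat.totient s' := by
    intro p hp
    rw [Finset.mem_sdiff] at hp
    have hpp := Nat.prime_of_mem_primeFactors hp.1
    have hpQ : p ∉ qs m := fun h => hp.2 (hQ h)
    have hpn : ¬ p ∣ s * Nat.totient s := by
      intro h
      apply hpQ
      rw [qs, Nat.mem_primeFactors]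
      exact ⟨hpp, h, (Nat.mul_pos hs0 (Nat.totient_pos.2 hs0)).ne'⟩
    have hp1 : ¬ p ∣ s := fun h => hpn (h.mul_right _)
    have hp2 : ¬ p ∣ Nat.totient s := fun h => hpn (h.mul_left _)
    have hid := Nat.totient_gcd_mul_totient_mul s s'
    have h1 : p ^ n.factorization p ∣ Nat.totient s * Nat.totient s' * s.gcd s' := by
      rw [← hid, ← hss, hsol]
      exact (Nat.ordProj_dvd n p).mul_left _
    have h2 : Nat.Coprime (p ^ n.factorization p) (s.gcd s') := by
      apply Nat.Coprime.pow_left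
      rw [hpp.coprime_iff_not_dvd]
      exact fun h => hp1 (h.trans (Nat.gcd_dvd_left _ _))
    have h3 : Nat.Coprime (p ^ n.factorization p) (Nat.totient s) := by
      apply Nat.Coprime.pow_left
      rw [hpp.coprime_iff_not_dvd]
      exact hp2
    have h4 := h2.dvd_of_dvd_mul_right h1
    exact h3.dvd_of_dvd_mul_left h4
  have hm'dvd : m' ∣ Nat.totient s' := by
    rw [hm', cop]
    apply Finset.prod_dvd_of_isRelPrime
    · intro p hp q hq hpq
      simp only [Function.onFun]
      rw [← Nat.coprime_iff_isRelPrime]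
      apply Nat.Coprime.pow
      have hp' := (Finset.mem_sdiff.1 hp).1
      have hq' := (Finset.mem_sdiff.1 hq).1
      rw [Nat.coprime_primes (Nat.prime_of_mem_primeFactors hp')
        (Nat.prime_of_mem_primeFactors hq')]
      exact hpq
    · exact hdvd
  -- prime factors of `m'`
  have hpf : ∀ p ∈ m'.primeFactors, 2 * w < p ∧ p ∉ R := by
    intro p hp
    have hpp := Nat.prime_of_mem_primeFactors hp
    have hpd : p ∣ ∏ q ∈ n.primeFactors \ R, q ^ n.factorization q :=
      Nat.dvd_of_mem_primeFactors hp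
    rw [hpp.prime.dvd_finsetProd_iff] at hpd
    obtain ⟨q, hq, hpq⟩ := hpd
    have hq' := Finset.mem_sdiff.1 hq
    have h1 := hpp.dvd_of_dvd_pow hpq
    rw [Nat.prime_dvd_prime_iff_eq hpp (Nat.prime_of_mem_primeFactors hq'.1)] at h1
    subst h1
    refine ⟨?_, hq'.2⟩
    by_contra hlt
    exact hq'.2 (hR p hpp (by omega))
  by_contra hne
  have hm'1 : m' ≠ 1 := by
    intro h
    apply hne
    rw [← hmm, h, mul_one]
  have hle : m' ≤ x := by
    have : m' ≤ m * m' := Nat.le_mul_of_pos_left _ (Nat.pos_of_ne_zero hm0)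
    rw [hmm] at this
    omega
  -- the number of prime factors
  have hk : 2 * m'.primeFactors.card ≤ 2 * w := by
    have h1 : (2 * w) ^ m'.primeFactors.card ≤ m' := by
      calc (2 * w) ^ m'.primeFactors.card = ∏ p ∈ m'.primeFactors, (2 * w) := by
            rw [Finset.prod_const]
        _ ≤ ∏ p ∈ m'.primeFactors, p := Finset.prod_le_prod' (fun p hp => (hpf p hp).1.le)
        _ ≤ m' := Nat.le_of_dvd (Nat.pos_of_ne_zero hm'0) (Nat.prod_primeFactors_dvd m')
    have h2 : (2 * w) ^ m'.primeFactors.card < (2 * w) ^ w := by omega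
    have h3 := (Nat.pow_lt_pow_iff_right (a := 2 * w) (by omega)).1 h2
    omega
  have hlt := sigma_lt_two_mul m' (2 * w) hm'0 (fun p hp => (hpf p hp).1) hk
  -- `m'` is odd
  have h2R : (2 : ℕ) ∈ R := hR 2 Nat.prime_two (by omega)
  have hodd : ¬ 2 ∣ m' := by
    intro h
    exact (hpf 2 (Nat.mem_primeFactors.2 ⟨Nat.prime_two, h, hm'0⟩)).2 h2R
  have hm'3 : 3 ≤ m' := by
    by_contra hc
    have h1 : m' ≠ 2 := by
      intro h; apply hodd; rw [h]
    omega
  have hs'3 : 2 < s' := by
    have := le_sigma hm'0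
    omega
  have heven : 2 ∣ Nat.totient s' := (Nat.totient_even hs'3).two_dvd
  have hcop2 : Nat.Coprime 2 m' := (Nat.prime_two.coprime_iff_not_dvd).2 hodd
  have h2m : 2 * m' ∣ Nat.totient s' := hcop2.mul_dvd_of_dvd_of_dvd heven hm'dvd
  have h1 := Nat.le_of_dvd (Nat.totient_pos.2 hs'0) h2m
  have h2 := Nat.totient_le s'
  omega

/-! ### Counting -/

/-- the number of steps still needed -/
def pot (R : Finset ℕ) (n : ℕ) : ℕ :=
  ∑ p ∈ (n * sigma 1 n).primeFactors \ R, (n.factorization p + 1)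

theorem pot_insert (R : Finset ℕ) (n p : ℕ) (hp : p ∈ (n * sigma 1 n).primeFactors \ R) :
    pot R n = (n.factorization p + 1) + pot (insert p R) n := by
  unfold pot
  rw [Finset.sdiff_insert, Finset.add_sum_erase _ (fun p => n.factorization p + 1) hp]

theorem qs_sub (R : Finset ℕ) (n : ℕ) (hn0 : n ≠ 0) (hsol : Nat.totient (sigma 1 n) = n) :
    qs (prt R n) ⊆ (n * sigma 1 n).primeFactors := by
  have hmm := prt_mul_cop R hn0
  have hco := coprime_prt_cop R n
  have h1 : sigma 1 (prt R n) ∣ sigma 1 n := by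
    conv_rhs => rw [← hmm]
    rw [isMultiplicative_sigma.map_mul_of_coprime hco]
    exact dvd_mul_right _ _
  have h2 : Nat.totient (sigma 1 (prt R n)) ∣ n := by
    have := Nat.totient_dvd_of_dvd h1
    rwa [hsol] at this
  unfold qs
  apply Nat.primeFactors_mono
  · rw [mul_comm]
    exact Nat.mul_dvd_mul h2 h1
  · exact (Nat.mul_pos (Nat.pos_of_ne_zero hn0) (sigma_pos' hn0)).ne'

theorem sum_two_pow (B : ℕ) : ∑ a ∈ range B, 2 ^ (B - 1 - a) < 2 ^ B := by
  rw [Finset.sum_range_reflect (fun j => 2 ^ j) B]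
  exact Nat.geomSum_lt le_rfl (fun k hk => Finset.mem_range.1 hk)

theorem count_aux (N : Finset ℕ) (R₀ : Finset ℕ) (hN0 : ∀ n ∈ N, n ≠ 0)
    (hsol : ∀ n ∈ N, Nat.totient (sigma 1 n) = n)
    (hstr : ∀ n ∈ N, ∀ R : Finset ℕ, R₀ ⊆ R → qs (prt R n) ⊆ R → prt R n = n) :
    ∀ (B : ℕ) (R : Finset ℕ) (m : ℕ), R₀ ⊆ R →
      (N.filter (fun n => prt R n = m ∧ pot R n ≤ B)).card ≤ 2 ^ B := by
  intro B
  induction B using Nat.strong_induction_on with
  | _ B ih =>
    intro R m hR
    by_cases hQ : qs m ⊆ R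
    · -- at most one solution
      have h1 : (N.filter (fun n => prt R n = m ∧ pot R n ≤ B)) ⊆ {m} := by
        intro n hn
        rw [Finset.mem_filter] at hn
        obtain ⟨hnN, h2, _⟩ := hn
        rw [Finset.mem_singleton]
        have := hstr n hnN R hR (by rw [h2]; exact hQ)
        rw [← this, h2]
      refine (Finset.card_le_card h1).trans ?_
      rw [Finset.card_singleton]
      exact Nat.one_le_two_pow
    · obtain ⟨p, hpQ, hpR⟩ := Finset.not_subset.1 hQ
      have hsub : (N.filter (fun n => prt R n = m ∧ pot R n ≤ B)) ⊆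
          (range B).biUnion (fun a => N.filter (fun n => prt (insert p R) n = p ^ a * m ∧
            pot (insert p R) n ≤ B - 1 - a)) := by
        intro n hn
        rw [Finset.mem_filter] at hn
        obtain ⟨hnN, h2, h3⟩ := hn
        have hpP : p ∈ (n * sigma 1 n).primeFactors \ R := by
          rw [Finset.mem_sdiff]
          refine ⟨qs_sub R n (hN0 n hnN) (hsol n hnN) ?_, hpR⟩
          rw [h2]; exact hpQ
        have h4 := pot_insert R n p hpP
        rw [Finset.mem_biUnion]
        refine ⟨n.factorization p, Finset.mem_range.2 (by omega), ?_⟩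
        rw [Finset.mem_filter]
        refine ⟨hnN, ?_, by omega⟩
        rw [prt_insert R n p hpR, h2]
      refine (Finset.card_le_card hsub).trans ?_
      refine Finset.card_biUnion_le.trans ?_
      refine (Finset.sum_le_sum (fun a ha => ?_)).trans (sum_two_pow B).le
      have ha' := Finset.mem_range.1 ha
      exact ih (B - 1 - a) (by omega) (insert p R) (p ^ a * m)
        (hR.trans (Finset.subset_insert _ _))

theorem sigma_le_sq (n : ℕ) : sigma 1 n ≤ n * n := by
  rw [sigma_one_apply]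
  calc ∑ d ∈ n.divisors, d ≤ ∑ d ∈ n.divisors, n := Finset.sum_le_sum (fun d hd =>
        Nat.divisor_le hd)
    _ = n.divisors.card * n := by rw [Finset.sum_const, smul_eq_mul]
    _ ≤ n * n := Nat.mul_le_mul_right _ (Nat.card_divisors_le_self n)

/-- the potential is small at the start -/
theorem pot_le (x w n : ℕ) (hw : 1 ≤ w) (hx : x < (2 * w) ^ w) (hn0 : n ≠ 0) (hn : n ≤ x)
    (R : Finset ℕ) (hR : ∀ p, p.Prime → p ≤ 2 * w → p ∈ R) : pot R n ≤ 4 * w := by
  set P := (n * sigma 1 n).primeFactors \ R with hP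
  have hns : n * sigma 1 n ≠ 0 := (Nat.mul_pos (Nat.pos_of_ne_zero hn0) (sigma_pos' hn0)).ne'
  have hbig : ∀ p ∈ P, 2 * w ≤ p := by
    intro p hp
    have hp' := Finset.mem_sdiff.1 hp
    by_contra hlt
    exact hp'.2 (hR p (Nat.prime_of_mem_primeFactors hp'.1) (by omega))
  have h1 : (2 * w) ^ pot R n ≤ ∏ p ∈ P, p ^ (n.factorization p + 1) := by
    unfold pot
    rw [← Finset.prod_pow_eq_pow_sum]
    exact Finset.prod_le_prod' (fun p hp => Nat.pow_le_pow_left (hbig p hp) _)
  have h2 : ∏ p ∈ P, p ^ (n.factorization p + 1) =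
      (∏ p ∈ P, p ^ n.factorization p) * ∏ p ∈ P, p := by
    rw [← Finset.prod_mul_distrib]
    exact Finset.prod_congr rfl (fun p _ => pow_succ _ _)
  have h3 : ∏ p ∈ P, p ^ n.factorization p ≤ n := by
    have := prt_mul_cop P hn0
    exact Nat.le_of_dvd (Nat.pos_of_ne_zero hn0) ⟨cop P n, this.symm⟩
  have h4 : ∏ p ∈ P, p ≤ n * sigma 1 n := by
    refine le_trans ?_ (Nat.le_of_dvd (Nat.pos_of_ne_zero hns) (Nat.prod_primeFactors_dvd _))
    apply Finset.prod_le_prod_of_subset_of_one_le' Finset.sdiff_subset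
    intro p hp _
    exact (Nat.prime_of_mem_primeFactors hp).one_le
  have h5 : (2 * w) ^ pot R n ≤ x ^ 4 := by
    calc (2 * w) ^ pot R n ≤ (∏ p ∈ P, p ^ n.factorization p) * ∏ p ∈ P, p := by
          rw [← h2]; exact h1
      _ ≤ n * (n * sigma 1 n) := Nat.mul_le_mul h3 h4
      _ ≤ n * (n * (n * n)) :=
          Nat.mul_le_mul_left _ (Nat.mul_le_mul_left _ (sigma_le_sq n))
      _ = n ^ 4 := by ring
      _ ≤ x ^ 4 := Nat.pow_le_pow_left hn 4
  have h6 : x ^ 4 < ((2 * w) ^ w) ^ 4 := Nat.pow_lt_pow_left hx (by norm_num)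
  rw [← pow_mul] at h6
  have h7 := (Nat.pow_lt_pow_iff_right (a := 2 * w) (by omega)).1 (lt_of_le_of_lt h5 h6)
  omega

/-- the number of smooth parts -/
theorem card_image_prt (x : ℕ) (N R₀ : Finset ℕ) (hN : ∀ n ∈ N, n ≠ 0 ∧ n ≤ x)
    (hR : ∀ p ∈ R₀, p.Prime) :
    (N.image (prt R₀)).card ≤ (Nat.log 2 x + 1) ^ R₀.card := by
  classical
  have hsub : N.image (prt R₀) ⊆ (R₀.pi (fun _ => range (Nat.log 2 x + 1))).image
      (fun e => ∏ p ∈ R₀.attach, (p : ℕ) ^ e p p.2) := by
    intro m hm
    rw [Finset.mem_image] at hm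
    obtain ⟨n, hn, rfl⟩ := hm
    obtain ⟨hn0, hnx⟩ := hN n hn
    rw [Finset.mem_image]
    refine ⟨fun p _ => n.factorization p, ?_, ?_⟩
    · rw [Finset.mem_pi]
      intro p hp
      rw [Finset.mem_range, Nat.lt_succ_iff]
      apply Nat.le_log_of_pow_le (by norm_num)
      calc 2 ^ n.factorization p ≤ p ^ n.factorization p :=
            Nat.pow_le_pow_left (hR p hp).two_le _
        _ ≤ n := Nat.ordProj_le p hn0
        _ ≤ x := hnx
    · exact Finset.prod_attach R₀ (fun p => p ^ n.factorization p)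
  refine (Finset.card_le_card hsub).trans ?_
  refine Finset.card_image_le.trans ?_
  rw [Finset.card_pi]
  simp

/-- **explicit form** -/
theorem count (x w : ℕ) (hw : 1 ≤ w) (hx : x < (2 * w) ^ w) :
    ((Finset.Icc 1 x).filter (fun n => Nat.totient (sigma 1 n) = n)).card ≤
      2 ^ (4 * w) * (Nat.log 2 x + 1) ^ Nat.primeCounting (2 * w) := by
  set N := (Finset.Icc 1 x).filter (fun n => Nat.totient (sigma 1 n) = n) with hN
  set R₀ := (range (2 * w + 1)).filter Nat.Prime with hR₀
  have hR₀c : R₀.card = Nat.primeCounting (2 * w) := by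
    rw [hR₀, Nat.primeCounting, Nat.primeCounting', Nat.count_eq_card_filter_range]
  have hmem : ∀ n ∈ N, n ≠ 0 ∧ n ≤ x ∧ Nat.totient (sigma 1 n) = n := by
    intro n hn
    rw [hN, Finset.mem_filter, Finset.mem_Icc] at hn
    exact ⟨by omega, hn.1.2, hn.2⟩
  have hRp : ∀ R : Finset ℕ, R₀ ⊆ R → ∀ p, p.Prime → p ≤ 2 * w → p ∈ R := by
    intro R hR p hp hpw
    apply hR
    rw [hR₀, Finset.mem_filter, Finset.mem_range]
    exact ⟨by omega, hp⟩
  have haux := count_aux N R₀ (fun n hn => (hmem n hn).1) (fun n hn => (hmem n hn).2.2)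
    (fun n hn R hR hQ => structure_thm x w n hw hx (hmem n hn).1 (hmem n hn).2.1
      (hmem n hn).2.2 R (hRp R hR) hQ)
  have h1 : N.card ≤ 2 ^ (4 * w) * (N.image (prt R₀)).card := by
    apply Finset.card_le_mul_card_image
    intro m _
    refine le_trans (Finset.card_le_card ?_) (haux (4 * w) R₀ m (Finset.Subset.refl _))
    intro n hn
    rw [Finset.mem_filter] at hn ⊢
    exact ⟨hn.1, hn.2, pot_le x w n hw hx (hmem n hn.1).1 (hmem n hn.1).2.1 R₀
      (hRp R₀ (Finset.Subset.refl _))⟩
  refine h1.trans ?_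
  apply Nat.mul_le_mul_left
  rw [← hR₀c]
  exact card_image_prt x N R₀ (fun n hn => ⟨(hmem n hn).1, (hmem n hn).2.1⟩)
    (fun p hp => (Finset.mem_filter.1 hp).2)

/-! ### The bound in terms of logarithms -/

theorem primeCounting_le (t : ℝ) (ht : 1 < t) :
    (Nat.primeCounting ⌊t⌋₊ : ℝ) ≤ 5 * t / Real.log t := by
  have h1 := Chebyshev.pi_le_log4_mul_div ht
  have hlt : 0 < Real.log t := Real.log_pos ht
  have ht0 : 0 < t := by linarith
  have hs : Real.log (Real.sqrt t) = Real.log t / 2 := Real.log_sqrt ht0.le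
  have hsq : 0 < Real.sqrt t := Real.sqrt_pos.2 ht0
  have h2 : Real.log t ≤ 2 * Real.sqrt t := by
    have := Real.log_le_sub_one_of_pos hsq
    rw [hs] at this
    linarith
  have h3 : Real.sqrt t ≤ 2 * t / Real.log t := by
    rw [le_div_iff₀ hlt]
    have h4 : Real.sqrt t * Real.sqrt t = t := Real.mul_self_sqrt ht0.le
    nlinarith
  have h5 : Real.log 4 * t / Real.log (Real.sqrt t) = 2 * Real.log 4 * t / Real.log t := by
    rw [hs]
    field_simp
  have h6 : Real.log 4 ≤ 1.4 := by
    have : (4 : ℝ) = 2 ^ 2 := by norm_num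
    rw [this, Real.log_pow]
    have := Real.log_two_lt_d9
    push_cast
    linarith
  rw [h5] at h1
  have h7 : 2 * Real.log 4 * t / Real.log t + 2 * t / Real.log t ≤ 5 * t / Real.log t := by
    rw [← add_div]
    apply div_le_div_of_nonneg_right _ hlt.le
    nlinarith
  linarith

theorem choice (x : ℕ) (hx : 16 ≤ x) : ∃ w : ℕ, 1 ≤ w ∧ x < (2 * w) ^ w ∧
    ((2 ^ (4 * w) * (Nat.log 2 x + 1) ^ Nat.primeCounting (2 * w) : ℕ) : ℝ) ≤
      Real.exp (130 * Real.log x / Real.log (Real.log x)) := by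
  have hxr : (16 : ℝ) ≤ x := by exact_mod_cast hx
  have hx0 : (0 : ℝ) < x := by linarith
  set X : ℝ := Real.log x with hXdef
  have hl2 := Real.log_two_gt_d9
  have hl2' := Real.log_two_lt_d9
  have hX : 2.77 < X := by
    have h1 : Real.log 16 ≤ X := Real.log_le_log (by norm_num) hxr
    have h2 : (16 : ℝ) = 2 ^ 4 := by norm_num
    rw [h2, Real.log_pow] at h1
    push_cast at h1
    linarith
  set Y : ℝ := Real.log X with hYdef
  have hY1 : 1 ≤ Y := by
    rw [hYdef, Real.le_log_iff_exp_le (by linarith)]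
    have := Real.exp_one_lt_d9
    linarith
  have hYX : Y ≤ X := by
    have := Real.log_le_sub_one_of_pos (show 0 < X by linarith)
    linarith
  have hlogY : Real.log Y ≤ Y / 2 := by
    have h1 := Real.log_le_sub_one_of_pos (show 0 < Y / 2 by linarith)
    rw [Real.log_div (by linarith) (by norm_num)] at h1
    linarith
  have hX0 : 0 < X := by linarith
  have hY0 : 0 < Y := by linarith
  have hXY : 1 ≤ X / Y := by rw [le_div_iff₀ hY0]; linarith
  set w : ℕ := ⌈2 * X / Y⌉₊ with hw
  have hw1 : 2 * X / Y ≤ w := Nat.le_ceil _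
  have hw2 : (w : ℝ) < 2 * X / Y + 1 := Nat.ceil_lt_add_one (by positivity)
  have hXY2 : 2 * X / Y = 2 * (X / Y) := by ring
  have hwle : (w : ℝ) ≤ 3 * (X / Y) := by linarith
  have hwpos : (1 : ℝ) ≤ w := by linarith
  have hwnat : 1 ≤ w := by exact_mod_cast hwpos
  set t : ℝ := 2 * (w : ℝ) with ht
  have ht1 : 4 * (X / Y) ≤ t := by linarith
  have ht2 : t ≤ 6 * (X / Y) := by linarith
  have htgt : 1 < t := by linarith
  have hlogt : Y / 2 + 1 ≤ Real.log t := by
    have h1 : Real.log (4 * (X / Y)) ≤ Real.log t := Real.log_le_log (by positivity) ht1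
    rw [Real.log_mul (by norm_num) (by positivity), Real.log_div hX0.ne' hY0.ne'] at h1
    have h2 : (4 : ℝ) = 2 ^ 2 := by norm_num
    rw [h2, Real.log_pow] at h1
    push_cast at h1
    linarith
  refine ⟨w, hwnat, ?_, ?_⟩
  · have h1 : (x : ℝ) < t ^ w := by
      rw [← Real.log_lt_log_iff hx0 (by positivity), Real.log_pow]
      have h2 : 2 * (X / Y) * (Y / 2 + 1) ≤ (w : ℝ) * Real.log t := by
        apply mul_le_mul (by linarith) hlogt (by positivity) (by positivity)
      have h3 : 2 * (X / Y) * (Y / 2 + 1) = X + 2 * (X / Y) := by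
        field_simp
      rw [h3] at h2
      have h4 : 0 < 2 * (X / Y) := by positivity
      linarith
    have h2 : (x : ℝ) < (((2 * w) ^ w : ℕ) : ℝ) := by
      push_cast
      exact h1
    exact_mod_cast h2
  · -- the size of the bound
    have hpi : (Nat.primeCounting (2 * w) : ℝ) ≤ 60 * (X / Y ^ 2) := by
      have h1 := primeCounting_le t htgt
      have h2 : ⌊t⌋₊ = 2 * w := by
        rw [ht]
        have : (2 * (w : ℝ)) = ((2 * w : ℕ) : ℝ) := by push_cast; ring
        rw [this, Nat.floor_natCast]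
      rw [h2] at h1
      refine h1.trans ?_
      have h3 : 0 < Real.log t := by linarith
      rw [div_le_iff₀ h3]
      have h4 : 60 * (X / Y ^ 2) * (Y / 2) ≤ 60 * (X / Y ^ 2) * Real.log t := by
        apply mul_le_mul_of_nonneg_left _ (by positivity)
        linarith
      have h5 : 60 * (X / Y ^ 2) * (Y / 2) = 30 * (X / Y) := by
        field_simp
        ring
      rw [h5] at h4
      linarith
    have hL : (Nat.log 2 x + 1 : ℝ) ≤ 2 * X := by
      have h1 : (2 : ℝ) ^ (Nat.log 2 x) ≤ x := by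
        exact_mod_cast Nat.pow_log_le_self 2 (by omega)
      have h2 : (Nat.log 2 x : ℝ) * Real.log 2 ≤ X := by
        have := Real.log_le_log (by positivity) h1
        rwa [Real.log_pow] at this
      nlinarith
    have hlogL : Real.log (Nat.log 2 x + 1 : ℝ) ≤ 2 * Y := by
      have h1 := Real.log_le_log (by positivity) hL
      rw [Real.log_mul (by norm_num) hX0.ne'] at h1
      linarith
    have hlogL0 : 0 ≤ Real.log (Nat.log 2 x + 1 : ℝ) := by
      apply Real.log_nonneg
      have : (0 : ℝ) ≤ (Nat.log 2 x : ℝ) := Nat.cast_nonneg _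
      linarith
    have hpos : (0 : ℝ) < ((2 ^ (4 * w) * (Nat.log 2 x + 1) ^ Nat.primeCounting (2 * w) : ℕ) : ℝ) := by
      positivity
    rw [← Real.exp_log hpos, Real.exp_le_exp]
    push_cast
    rw [Real.log_mul (by positivity) (by positivity), Real.log_pow, Real.log_pow]
    push_cast
    have e1 : 4 * (w : ℝ) * Real.log 2 ≤ 9 * (X / Y) := by
      have h1 : 0 < X / Y := by positivity
      nlinarith
    have e2 : (Nat.primeCounting (2 * w) : ℝ) * Real.log (Nat.log 2 x + 1 : ℝ) ≤
        120 * (X / Y) := by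
      calc (Nat.primeCounting (2 * w) : ℝ) * Real.log (Nat.log 2 x + 1 : ℝ)
          ≤ 60 * (X / Y ^ 2) * (2 * Y) := by
            apply mul_le_mul hpi hlogL hlogL0 (by positivity)
        _ = 120 * (X / Y) := by field_simp; ring
    have e3 : 130 * X / Y = 130 * (X / Y) := by ring
    rw [e3]
    have h1 : 0 < X / Y := by positivity
    linarith

/-- The number of solutions `n ≤ x` of `φ(σ(n)) = n` is at most `exp (130 log x / log log x)`. -/
theorem result (x : ℕ) (hx : 16 ≤ x) :
    (((Finset.Icc 1 x).filter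
        (fun n => Nat.totient (ArithmeticFunction.sigma 1 n) = n)).card : ℝ) ≤
      Real.exp (130 * Real.log x / Real.log (Real.log x)) := by
  obtain ⟨w, hw, hxw, hle⟩ := choice x hx
  refine le_trans ?_ hle
  exact_mod_cast count x w hw hxw

end Pool.Agent.Results.MP_ed2bed_nt.CountingBound
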