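import Mathlib

/-!
# Solutions of `φ(σ(n)) = n` with few prime factors or with bounded exponents

There are only finitely many solutions `n` with at most `K` distinct prime factors and
`2`-adic valuation at most `E`.  Consequently there are only finitely many solutions in which
the exponent of `2` and the exponents of the primes dividing `gcd (n, σ(n))` are at most `E`;
in particular only finitely many `k`-free solutions, for every `k`.

Idea: `n` and `m = σ(n)` satisfy `n / σ(n) = φ(m) / m`.  If the prime factors of `n m` and the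
exponents of `n` split into small ones (at most `y`) and huge ones, this identity forces an exact
equality between the contributions of the small ones, and then the complementary equality is
impossible modulo `2`, unless there are no huge primes and exponents at all.
-/

set_option autoImplicit false

open Finset ArithmeticFunction

namespace Pool.Agent.Results.MP_ed2bed_nt.FewPrimes

/-- `1 + p + ... + p ^ a = σ(p ^ a)` -/
def sg (p a : ℕ) : ℕ := ∑ i ∈ range (a + 1), p ^ i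

lemma sg_pos (p a : ℕ) : 0 < sg p a := by
  unfold sg
  apply Finset.sum_pos' (fun i _ => Nat.zero_le _)
  exact ⟨0, by simp, by simp⟩

lemma pow_le_sg (p a : ℕ) : p ^ a ≤ sg p a := by
  unfold sg
  exact Finset.single_le_sum (f := fun i => p ^ i) (fun i _ => Nat.zero_le _) (by simp)

lemma sg_mul (p a : ℕ) :
    (sg p a : ℝ) * ((p : ℝ) - 1) = (p : ℝ) ^ (a + 1) - 1 := by
  unfold sg
  push_cast
  exact geom_sum_mul (p : ℝ) (a + 1)

/-- one step of the scale -/
def step (K R y : ℕ) : ℕ := 2 * (K + R + 1) * y ^ (R + K * y + K) + y + 2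

/-! ### The splitting argument -/

lemma prod_upper {ι : Type*} (s : Finset ι) (f : ι → ℝ) (N : ℕ) (Y : ℝ) (hY : 0 < Y)
    (hN : s.card ≤ N) (h0 : ∀ i ∈ s, 0 ≤ f i) (h : ∀ i ∈ s, f i ≤ 1 + 1 / Y) :
    ∏ i ∈ s, f i ≤ Real.exp (N / Y) := by
  calc ∏ i ∈ s, f i ≤ ∏ _i ∈ s, Real.exp (1 / Y) := by
        apply Finset.prod_le_prod h0
        intro i hi
        have := Real.add_one_le_exp (1 / Y)
        linarith [h i hi]
    _ = Real.exp (s.card * (1 / Y)) := by
        rw [Finset.prod_const, ← Real.exp_nat_mul]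
    _ ≤ Real.exp (N / Y) := by
        apply Real.exp_le_exp.2
        have h1 : (s.card : ℝ) ≤ N := by exact_mod_cast hN
        rw [mul_one_div]
        exact div_le_div_of_nonneg_right h1 hY.le

lemma prod_lower {ι : Type*} (s : Finset ι) (f : ι → ℝ) (N : ℕ) (Y : ℝ) (hY : 1 ≤ Y)
    (hN : s.card ≤ N) (h : ∀ i ∈ s, 1 - 1 / Y ≤ f i) :
    1 - N / Y ≤ ∏ i ∈ s, f i := by
  have hY0 : 0 < Y := by linarith
  have h01 : 0 ≤ 1 - 1 / Y := by
    rw [sub_nonneg, div_le_one hY0]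
    exact hY
  have h1 : (s.card : ℝ) ≤ N := by exact_mod_cast hN
  calc (1 : ℝ) - N / Y ≤ 1 + (s.card : ℝ) * (-(1 / Y)) := by
        have : (s.card : ℝ) / Y ≤ N / Y := div_le_div_of_nonneg_right h1 hY0.le
        have h2 : (s.card : ℝ) * (-(1 / Y)) = -((s.card : ℝ) / Y) := by ring
        rw [h2]
        linarith
    _ ≤ (1 + -(1 / Y)) ^ s.card := by
        apply one_add_mul_le_pow
        linarith
    _ = ∏ _i ∈ s, (1 - 1 / Y) := by
        rw [Finset.prod_const, sub_eq_add_neg]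
    _ ≤ ∏ i ∈ s, f i := Finset.prod_le_prod (fun _ _ => h01) h

lemma odd_prod {s : Finset ℕ} (f : ℕ → ℕ) (h : ∀ i ∈ s, Odd (f i)) : Odd (∏ i ∈ s, f i) :=
  Finset.prod_induction f Odd (fun _ _ => Odd.mul) odd_one h

lemma eq_of_close {N1 N2 K R Y : ℕ} {x : ℝ} (hN2 : 0 < N2)
    (hY : 2 * ((K : ℝ) + R + 1) * N2 < Y) (hx : (N1 : ℝ) = N2 * x)
    (hlo : 1 - (K : ℝ) / Y ≤ x) (hup : x ≤ Real.exp (((K : ℝ) + R) / Y)) : N1 = N2 := by
  have hN2r : (1 : ℝ) ≤ N2 := by exact_mod_cast hN2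
  have hK0 : (0 : ℝ) ≤ K := by positivity
  have hR0 : (0 : ℝ) ≤ R := by positivity
  have hY0 : (0 : ℝ) < Y := by
    refine lt_trans ?_ hY
    positivity
  have hA : 2 * ((K : ℝ) + R) * N2 < Y := by nlinarith
  have hB : (K : ℝ) * N2 < Y := by nlinarith
  have hC : (K : ℝ) + R < Y := by nlinarith
  have h2 : ((K : ℝ) + R) / Y ≤ 1 := by
    rw [div_le_one hY0]
    exact hC.le
  have h4 : 0 ≤ ((K : ℝ) + R) / Y := by positivity
  have h3 : Real.exp (((K : ℝ) + R) / Y) ≤ 1 + 2 * (((K : ℝ) + R) / Y) := by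
    have h5 := Real.abs_exp_sub_one_le (x := ((K : ℝ) + R) / Y)
      (by rw [abs_of_nonneg h4]; exact h2)
    rw [abs_of_nonneg h4] at h5
    have := le_abs_self (Real.exp (((K : ℝ) + R) / Y) - 1)
    linarith
  have h6 : (N2 : ℝ) * (2 * (((K : ℝ) + R) / Y)) < 1 := by
    rw [show (N2 : ℝ) * (2 * (((K : ℝ) + R) / Y)) = (2 * ((K : ℝ) + R) * N2) / Y by ring,
      div_lt_one hY0]
    exact hA
  have h7 : (N2 : ℝ) * ((K : ℝ) / Y) < 1 := by
    rw [show (N2 : ℝ) * ((K : ℝ) / Y) = ((K : ℝ) * N2) / Y by ring, div_lt_one hY0]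
    exact hB
  have hN0 : (0 : ℝ) ≤ N2 := by linarith
  have u : (N1 : ℝ) < N2 + 1 := by
    rw [hx]
    calc (N2 : ℝ) * x ≤ N2 * (1 + 2 * (((K : ℝ) + R) / Y)) :=
          mul_le_mul_of_nonneg_left (hup.trans h3) hN0
      _ < N2 + 1 := by linarith
  have l : (N2 : ℝ) < N1 + 1 := by
    rw [hx]
    calc (N2 : ℝ) < N2 * (1 - (K : ℝ) / Y) + 1 := by linarith
      _ ≤ N2 * x + 1 := by
        have := mul_le_mul_of_nonneg_left hlo hN0
        linarith
  have h1 : N1 < N2 + 1 := by exact_mod_cast u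
  have h2' : N2 < N1 + 1 := by exact_mod_cast l
  omega

lemma core {P Q : Finset ℕ} {a : ℕ → ℕ} {K R y Y : ℕ} (hP : ∀ p ∈ P, p.Prime)
    (hQ : ∀ q ∈ Q, q.Prime)
    (hrel : (∏ p ∈ P, p ^ a p) * ∏ q ∈ Q, q = (∏ p ∈ P, sg p (a p)) * ∏ q ∈ Q, (q - 1))
    (hK : P.card ≤ K) (hR : Q.card ≤ R) (hy : 2 ≤ y) (ha2 : a 2 ≤ y)
    (hY : step K R y ≤ Y) (gP : ∀ p ∈ P, y < p → Y < p) (gQ : ∀ q ∈ Q, y < q → Y < q)
    (ga : ∀ p ∈ P, y < a p → Y < a p) :
    (∀ q ∈ Q, q ≤ y) ∧ ∀ p ∈ P, p ≤ y → a p ≤ y := by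
  classical
  have hyY : y + 2 ≤ Y := by
    have : y + 2 ≤ step K R y := by unfold step; omega
    omega
  set Qs := Q.filter (fun q => q ≤ y) with hQs
  set Ql := Q.filter (fun q => ¬ q ≤ y) with hQl
  set Ps := P.filter (fun p => p ≤ y) with hPs
  set Pl := P.filter (fun p => ¬ p ≤ y) with hPl
  set A := Ps.filter (fun p => a p ≤ y) with hA
  set B := Ps.filter (fun p => ¬ a p ≤ y) with hB
  have hQsplit : ∀ f : ℕ → ℕ, ∏ q ∈ Q, f q = (∏ q ∈ Qs, f q) * ∏ q ∈ Ql, f q := fun f =>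
    (Finset.prod_filter_mul_prod_filter_not Q (fun q => q ≤ y) f).symm
  have hPsplit : ∀ f : ℕ → ℕ, ∏ p ∈ P, f p =
      ((∏ p ∈ A, f p) * ∏ p ∈ B, f p) * ∏ p ∈ Pl, f p := fun f => by
    rw [Finset.prod_filter_mul_prod_filter_not Ps (fun p => a p ≤ y) f,
      Finset.prod_filter_mul_prod_filter_not P (fun p => p ≤ y) f]
  have mQl : ∀ q ∈ Ql, q.Prime ∧ Y < q := fun q hq => by
    rw [hQl, Finset.mem_filter, not_le] at hq
    exact ⟨hQ q hq.1, gQ q hq.1 hq.2⟩
  have mPl : ∀ p ∈ Pl, p.Prime ∧ Y < p := fun p hp => by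
    rw [hPl, Finset.mem_filter, not_le] at hp
    exact ⟨hP p hp.1, gP p hp.1 hp.2⟩
  have mB : ∀ p ∈ B, p.Prime ∧ p ≤ y ∧ Y < a p := fun p hp => by
    rw [hB, Finset.mem_filter, hPs, Finset.mem_filter, not_le] at hp
    exact ⟨hP p hp.1.1, hp.1.2, ga p hp.1.1 hp.2⟩
  have mA : ∀ p ∈ A, p.Prime ∧ p ≤ y ∧ a p ≤ y := fun p hp => by
    rw [hA, Finset.mem_filter, hPs, Finset.mem_filter] at hp
    exact ⟨hP p hp.1.1, hp.1.2, hp.2⟩
  have mQs : ∀ q ∈ Qs, q.Prime ∧ q ≤ y := fun q hq => by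
    rw [hQs, Finset.mem_filter] at hq
    exact ⟨hQ q hq.1, hq.2⟩
  -- the small and the complementary products
  set N1 : ℕ := (∏ q ∈ Qs, (q - 1)) * (∏ p ∈ A, sg p (a p)) * ∏ p ∈ B, p with hN1
  set N2 : ℕ := (∏ q ∈ Qs, q) * (∏ p ∈ A, p ^ a p) * ∏ p ∈ B, (p - 1) with hN2
  set C1 : ℕ := (∏ q ∈ Ql, q) * (∏ p ∈ Pl, p ^ a p) * ∏ p ∈ B, p ^ (a p + 1) with hC1
  set C2 : ℕ := (∏ q ∈ Ql, (q - 1)) * (∏ p ∈ Pl, sg p (a p)) * ∏ p ∈ B, (sg p (a p) * (p - 1))
    with hC2
  have hmain : N2 * C1 = N1 * C2 := by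
    rw [hQsplit, hQsplit, hPsplit, hPsplit] at hrel
    have e1 : ∏ p ∈ B, p ^ (a p + 1) = (∏ p ∈ B, p ^ a p) * ∏ p ∈ B, p := by
      rw [← Finset.prod_mul_distrib]
      exact Finset.prod_congr rfl fun p _ => pow_succ _ _
    rw [hN1, hN2, hC1, hC2, e1, Finset.prod_mul_distrib]
    calc _ = ((((∏ p ∈ A, p ^ a p) * ∏ p ∈ B, p ^ a p) * ∏ p ∈ Pl, p ^ a p) *
          ((∏ q ∈ Qs, q) * ∏ q ∈ Ql, q)) * ((∏ p ∈ B, p) * ∏ p ∈ B, (p - 1)) := by ring
      _ = _ := by rw [hrel]; ring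
  -- positivity
  have hY1 : (1 : ℝ) ≤ Y := by exact_mod_cast (by omega : 1 ≤ Y)
  have hY0 : (0 : ℝ) < Y := by linarith
  have hN2pos : 0 < N2 := by
    rw [hN2]
    refine Nat.mul_pos (Nat.mul_pos ?_ ?_) ?_
    · exact Finset.prod_pos fun q hq => (mQs q hq).1.pos
    · exact Finset.prod_pos fun p hp => pow_pos (mA p hp).1.pos _
    · exact Finset.prod_pos fun p hp => by have := (mB p hp).1.two_le; omega
  have hC2pos : 0 < C2 := by
    rw [hC2]
    refine Nat.mul_pos (Nat.mul_pos ?_ ?_) ?_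
    · exact Finset.prod_pos fun q hq => by have := (mQl q hq).1.two_le; omega
    · exact Finset.prod_pos fun p _ => sg_pos _ _
    · exact Finset.prod_pos fun p hp => Nat.mul_pos (sg_pos _ _)
        (by have := (mB p hp).1.two_le; omega)
  -- the bound for `N2`
  have hN2le : N2 ≤ y ^ (R + K * y + K) := by
    have b1 : ∏ q ∈ Qs, q ≤ y ^ R := by
      calc ∏ q ∈ Qs, q ≤ y ^ Qs.card := Finset.prod_le_pow_card _ _ _ fun q hq => (mQs q hq).2
        _ ≤ y ^ R := Nat.pow_le_pow_right (by omega) ((Finset.card_filter_le _ _).trans hR)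
    have cA : A.card ≤ K := (Finset.card_filter_le _ _).trans ((Finset.card_filter_le _ _).trans hK)
    have cB : B.card ≤ K := (Finset.card_filter_le _ _).trans ((Finset.card_filter_le _ _).trans hK)
    have b2 : ∏ p ∈ A, p ^ a p ≤ y ^ (K * y) := by
      calc ∏ p ∈ A, p ^ a p ≤ (y ^ y) ^ A.card := Finset.prod_le_pow_card _ _ _ fun p hp =>
            (Nat.pow_le_pow_left (mA p hp).2.1 _).trans
              (Nat.pow_le_pow_right (by omega) (mA p hp).2.2)
        _ ≤ (y ^ y) ^ K := Nat.pow_le_pow_right (Nat.pow_pos (by omega)) cA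
        _ = y ^ (K * y) := by rw [← pow_mul, mul_comm]
    have b3 : ∏ p ∈ B, (p - 1) ≤ y ^ K := by
      calc ∏ p ∈ B, (p - 1) ≤ y ^ B.card := Finset.prod_le_pow_card _ _ _ fun p hp => by
            have := (mB p hp).2.1; omega
        _ ≤ y ^ K := Nat.pow_le_pow_right (by omega) cB
    rw [hN2, pow_add, pow_add]
    exact Nat.mul_le_mul (Nat.mul_le_mul b1 b2) b3
  have hYN : 2 * ((K : ℝ) + R + 1) * N2 < Y := by
    have h1 : 2 * (K + R + 1) * N2 < Y := by
      have h2 : 2 * (K + R + 1) * N2 ≤ 2 * (K + R + 1) * y ^ (R + K * y + K) :=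
        Nat.mul_le_mul_left _ hN2le
      have h3 : 2 * (K + R + 1) * y ^ (R + K * y + K) + y + 2 ≤ Y := hY
      omega
    exact_mod_cast h1
  -- the quotient `C1 / C2`
  have hq : (C1 : ℝ) / C2 = (∏ q ∈ Ql, ((q : ℝ) / ((q - 1 : ℕ) : ℝ))) *
      (∏ p ∈ Pl, ((p : ℝ) ^ a p / sg p (a p))) *
      ∏ p ∈ B, ((p : ℝ) ^ (a p + 1) / (sg p (a p) * ((p - 1 : ℕ) : ℝ))) := by
    rw [hC1, hC2]
    push_cast
    rw [Finset.prod_div_distrib, Finset.prod_div_distrib, Finset.prod_div_distrib, mul_div_mul_comm,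
      mul_div_mul_comm]
  have castp : ∀ p : ℕ, p.Prime → ((p - 1 : ℕ) : ℝ) = (p : ℝ) - 1 := fun p hp => by
    rw [Nat.cast_sub hp.one_lt.le, Nat.cast_one]
  have cQl : Ql.card ≤ R := (Finset.card_filter_le _ _).trans hR
  have cPl : Pl.card ≤ K := (Finset.card_filter_le _ _).trans hK
  have cB : B.card ≤ K := (Finset.card_filter_le _ _).trans ((Finset.card_filter_le _ _).trans hK)
  have f1 : ∀ q ∈ Ql, 1 ≤ (q : ℝ) / ((q - 1 : ℕ) : ℝ) ∧
      (q : ℝ) / ((q - 1 : ℕ) : ℝ) ≤ 1 + 1 / Y := fun q hq => by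
    have h1 := (mQl q hq).1
    have h2 : (Y : ℝ) + 1 ≤ q := by exact_mod_cast (mQl q hq).2
    rw [castp q h1]
    have h3 : (0 : ℝ) < (q : ℝ) - 1 := by linarith
    have h4 : (q : ℝ) / ((q : ℝ) - 1) = 1 + 1 / ((q : ℝ) - 1) := by field_simp; ring
    rw [h4]
    constructor
    · have := one_div_pos.2 h3
      linarith
    · have := one_div_le_one_div_of_le hY0 (by linarith : (Y : ℝ) ≤ (q : ℝ) - 1)
      linarith
  have f2 : ∀ p ∈ Pl, 1 - 1 / (Y : ℝ) ≤ (p : ℝ) ^ a p / sg p (a p) ∧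
      (p : ℝ) ^ a p / sg p (a p) ≤ 1 := fun p hp => by
    have h1 := (mPl p hp).1
    have h2 : (Y : ℝ) < p := by exact_mod_cast (mPl p hp).2
    have hs : (0 : ℝ) < sg p (a p) := by exact_mod_cast sg_pos p (a p)
    have hp0 : (0 : ℝ) < p := by linarith
    have h5 := sg_mul p (a p)
    constructor
    · rw [le_div_iff₀ hs]
      have h6 : (1 : ℝ) / p ≤ 1 / Y := one_div_le_one_div_of_le hY0 h2.le
      have h7 : (1 - 1 / (p : ℝ)) * sg p (a p) ≤ (p : ℝ) ^ a p := by
        have h8 : (1 - 1 / (p : ℝ)) * sg p (a p) = (sg p (a p) * ((p : ℝ) - 1)) / p := by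
          field_simp
        rw [h8, h5, div_le_iff₀ hp0, pow_succ]
        linarith
      refine le_trans ?_ h7
      apply mul_le_mul_of_nonneg_right _ hs.le
      linarith
    · rw [div_le_one hs]
      exact_mod_cast pow_le_sg p (a p)
  have f3 : ∀ p ∈ B, 1 ≤ (p : ℝ) ^ (a p + 1) / (sg p (a p) * ((p - 1 : ℕ) : ℝ)) ∧
      (p : ℝ) ^ (a p + 1) / (sg p (a p) * ((p - 1 : ℕ) : ℝ)) ≤ 1 + 1 / Y := fun p hp => by
    obtain ⟨h1, h2, h3⟩ := mB p hp
    rw [castp p h1, sg_mul]
    have h4 : (Y : ℝ) + 1 ≤ (p : ℝ) ^ (a p + 1) := by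
      have h5 : Y + 1 ≤ p ^ (a p + 1) := by
        calc Y + 1 ≤ a p + 1 := by omega
          _ ≤ 2 ^ (a p + 1) := (Nat.lt_two_pow_self).le
          _ ≤ p ^ (a p + 1) := Nat.pow_le_pow_left h1.two_le _
      exact_mod_cast h5
    have h6 : (0 : ℝ) < (p : ℝ) ^ (a p + 1) - 1 := by linarith
    have h7 : (p : ℝ) ^ (a p + 1) / ((p : ℝ) ^ (a p + 1) - 1) =
        1 + 1 / ((p : ℝ) ^ (a p + 1) - 1) := by field_simp; ring
    rw [h7]
    constructor
    · have := one_div_pos.2 h6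
      linarith
    · have := one_div_le_one_div_of_le hY0 (by linarith : (Y : ℝ) ≤ (p : ℝ) ^ (a p + 1) - 1)
      linarith
  have u1 := prod_upper Ql _ R Y hY0 cQl (fun q hq => by linarith [(f1 q hq).1])
    fun q hq => (f1 q hq).2
  have u3 := prod_upper B _ K Y hY0 cB (fun q hq => by linarith [(f3 q hq).1])
    fun q hq => (f3 q hq).2
  have l2 := prod_lower Pl _ K Y hY1 cPl fun q hq => (f2 q hq).1
  have h01 : ∀ p ∈ Pl, 0 ≤ (p : ℝ) ^ a p / sg p (a p) := fun p _ => by positivity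
  have u2 : ∏ p ∈ Pl, ((p : ℝ) ^ a p / sg p (a p)) ≤ 1 :=
    Finset.prod_le_one h01 fun q hq => (f2 q hq).2
  have l1 : 1 ≤ ∏ q ∈ Ql, ((q : ℝ) / ((q - 1 : ℕ) : ℝ)) := by
    have := Finset.prod_le_prod (s := Ql) (f := fun _ => (1 : ℝ))
      (g := fun q : ℕ => (q : ℝ) / ((q - 1 : ℕ) : ℝ)) (fun _ _ => zero_le_one)
      fun q hq => (f1 q hq).1
    simpa using this
  have l3 : 1 ≤ ∏ p ∈ B, ((p : ℝ) ^ (a p + 1) / (sg p (a p) * ((p - 1 : ℕ) : ℝ))) := by
    have := Finset.prod_le_prod (s := B) (f := fun _ => (1 : ℝ))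
      (g := fun p : ℕ => (p : ℝ) ^ (a p + 1) / (sg p (a p) * ((p - 1 : ℕ) : ℝ)))
      (fun _ _ => zero_le_one) fun q hq => (f3 q hq).1
    simpa using this
  have u0 : 0 ≤ ∏ p ∈ Pl, ((p : ℝ) ^ a p / sg p (a p)) := Finset.prod_nonneg h01
  have hC2r : (0 : ℝ) < C2 := by exact_mod_cast hC2pos
  have hEq : N1 = N2 := by
    refine eq_of_close (x := (C1 : ℝ) / C2) hN2pos hYN ?_ ?_ ?_
    · rw [mul_div_assoc', eq_div_iff hC2r.ne']
      exact_mod_cast hmain.symm
    · rw [hq]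
      refine l2.trans ?_
      refine (le_mul_of_one_le_left u0 l1).trans ?_
      exact le_mul_of_one_le_right (mul_nonneg (zero_le_one.trans l1) u0) l3
    · rw [hq]
      refine (mul_le_mul (mul_le_mul u1 u2 u0 (Real.exp_pos _).le) u3
        (zero_le_one.trans l3) (by positivity)).trans ?_
      rw [mul_one, ← Real.exp_add]
      apply le_of_eq
      congr 1
      ring
  have hC : C1 = C2 := by
    rw [hEq] at hmain
    exact Nat.eq_of_mul_eq_mul_left hN2pos hmain
  -- parity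
  have oddB : ∀ p ∈ B, Odd p := fun p hp => by
    obtain ⟨h1, h2, h3⟩ := mB p hp
    refine h1.odd_of_ne_two ?_
    rintro rfl
    omega
  have oddQ : ∀ p ∈ Ql, Odd p := fun p hp => by
    obtain ⟨h1, h2⟩ := mQl p hp
    exact h1.odd_of_ne_two (by omega)
  have oddP : ∀ p ∈ Pl, Odd p := fun p hp => by
    obtain ⟨h1, h2⟩ := mPl p hp
    exact h1.odd_of_ne_two (by omega)
  have hodd : Odd C1 := by
    rw [hC1]
    refine Nat.odd_mul.2 ⟨Nat.odd_mul.2 ⟨?_, ?_⟩, ?_⟩
    · exact odd_prod (fun q => q) oddQ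
    · exact odd_prod _ fun p hp => (oddP p hp).pow
    · exact odd_prod _ fun p hp => (oddB p hp).pow
  rw [hC] at hodd
  rw [hC2, Nat.odd_mul, Nat.odd_mul] at hodd
  constructor
  · intro q hq
    by_contra hlt
    have hmem : q ∈ Ql := by rw [hQl, Finset.mem_filter]; exact ⟨hq, hlt⟩
    have h1 : Odd (q - 1) := Odd.of_dvd_nat hodd.1.1 (Finset.dvd_prod_of_mem _ hmem)
    have h2 := oddQ q hmem
    rw [Nat.odd_iff] at h1 h2
    omega
  · intro p hp hpy
    by_contra hlt
    have hmem : p ∈ B := by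
      rw [hB, Finset.mem_filter, hPs, Finset.mem_filter]; exact ⟨⟨hp, hpy⟩, hlt⟩
    have h1 : Odd (sg p (a p) * (p - 1)) :=
      Odd.of_dvd_nat hodd.2 (Finset.dvd_prod_of_mem (fun p => sg p (a p) * (p - 1)) hmem)
    have h2 := oddB p hmem
    rw [Nat.odd_mul] at h1
    have h3 := h1.2
    rw [Nat.odd_iff] at h3 h2
    omega

/-! ### The arithmetic of a solution -/

lemma sigma_prod {n : ℕ} (hn : 0 < n) :
    sigma 1 n = ∏ p ∈ n.primeFactors, sg p (n.factorization p) := by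
  rw [sigma_one_apply, Nat.sum_divisors hn.ne']
  rfl

lemma self_prod {n : ℕ} (hn : 0 < n) : ∏ p ∈ n.primeFactors, p ^ n.factorization p = n :=
  Nat.prod_factorization_pow_eq_self hn.ne'

lemma rel {n : ℕ} (hn : 0 < n) (h : Nat.totient (sigma 1 n) = n) :
    (∏ p ∈ n.primeFactors, p ^ n.factorization p) * ∏ q ∈ (sigma 1 n).primeFactors, q =
    (∏ p ∈ n.primeFactors, sg p (n.factorization p)) * ∏ q ∈ (sigma 1 n).primeFactors, (q - 1) := by
  have h1 := Nat.totient_mul_prod_primeFactors (sigma 1 n)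
  rw [h] at h1
  rw [self_prod hn, ← sigma_prod hn, h1]

lemma prod_sub_dvd (m : ℕ) : ∏ q ∈ m.primeFactors, (q - 1) ∣ Nat.totient m := by
  rw [Nat.totient_eq_div_primeFactors_mul]
  exact dvd_mul_left _ _

lemma card_le {n : ℕ} (hn : 0 < n) (h : Nat.totient (sigma 1 n) = n) :
    (sigma 1 n).primeFactors.card ≤ n.factorization 2 + 1 := by
  have h1 : ((sigma 1 n).primeFactors.erase 2).card ≤ n.factorization 2 := by
    rw [← Nat.prime_two.pow_dvd_iff_le_factorization hn.ne']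
    have h2 : ∏ q ∈ (sigma 1 n).primeFactors.erase 2, (q - 1) ∣ n := by
      have h3 := prod_sub_dvd (sigma 1 n)
      rw [h] at h3
      exact (Finset.prod_dvd_prod_of_subset _ _ _ (Finset.erase_subset _ _)).trans h3
    refine dvd_trans ?_ h2
    rw [← Finset.prod_const]
    apply Finset.prod_dvd_prod_of_dvd
    intro q hq
    rw [Finset.mem_erase] at hq
    have h4 := (Nat.prime_of_mem_primeFactors hq.2).odd_of_ne_two hq.1
    obtain ⟨k, hk⟩ := h4
    exact ⟨k, by omega⟩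
  have h5 := Finset.pred_card_le_card_erase (s := (sigma 1 n).primeFactors) (a := 2)
  omega

/-- the scale -/
def sc (K R y₀ : ℕ) : ℕ → ℕ
  | 0 => y₀
  | i + 1 => step K R (sc K R y₀ i)

lemma sc_lt (K R y₀ i : ℕ) : sc K R y₀ i < sc K R y₀ (i + 1) := by
  rw [sc, step]
  omega

lemma sc_mono (K R y₀ : ℕ) : StrictMono (sc K R y₀) := strictMono_nat_of_lt_succ (sc_lt K R y₀)

lemma gap (K R y₀ N : ℕ) (T : Finset ℕ) (hT : T.card ≤ N) :
    ∃ i ≤ N, ∀ t ∈ T, sc K R y₀ i < t → sc K R y₀ (i + 1) < t := by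
  by_contra! hcon
  have hch : ∀ i : ℕ, ∃ t : ℕ, i ≤ N → t ∈ T ∧ sc K R y₀ i < t ∧ t ≤ sc K R y₀ (i + 1) := by
    intro i
    by_cases hi : i ≤ N
    · obtain ⟨t, h1, h2, h3⟩ := hcon i hi
      exact ⟨t, fun _ => ⟨h1, h2, h3⟩⟩
    · exact ⟨0, fun h => absurd h hi⟩
  choose f hf using hch
  obtain ⟨i, hi, j, hj, hij, hfe⟩ := Finset.exists_ne_map_eq_of_card_lt_of_maps_to
    (s := Finset.range (N + 1)) (t := T) (by rw [Finset.card_range]; omega) (f := f) (by
      intro i hi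
      have hi' : i < N + 1 := by simpa using hi
      exact (hf i (by omega)).1)
  rw [Finset.mem_range] at hi hj
  have key : ∀ i j : ℕ, i < N + 1 → j < N + 1 → i < j → f i = f j → False := by
    intro i j hi hj hlt he
    have h1 := (hf i (by omega)).2.2
    have h2 := (hf j (by omega)).2.1
    have h3 : sc K R y₀ (i + 1) ≤ sc K R y₀ j := (sc_mono K R y₀).monotone hlt
    omega
  rcases lt_or_gt_of_ne hij with h | h
  · exact key i j hi hj h hfe
  · exact key j i hj hi h hfe.symm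

/-- a solution with few prime factors and small `2`-adic valuation is bounded -/
lemma bound {n K E : ℕ} (hn : 0 < n) (h : Nat.totient (sigma 1 n) = n)
    (h2 : n.factorization 2 ≤ E) (hK : n.primeFactors.card ≤ K) :
    n ≤ (sc K (E + 1) (E + 2) (2 * K + (E + 1)) ^
      sc K (E + 1) (E + 2) (2 * K + (E + 1))) ^ K := by
  classical
  set P := n.primeFactors with hPdef
  set Q := (sigma 1 n).primeFactors with hQdef
  have hR : Q.card ≤ E + 1 := (card_le hn h).trans (by omega)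
  obtain ⟨i, hi, hgap⟩ := gap K (E + 1) (E + 2) (2 * K + (E + 1))
    (P ∪ Q ∪ P.image (fun p => n.factorization p)) (by
      have c1 := Finset.card_union_le (P ∪ Q) (P.image (fun p => n.factorization p))
      have c2 := Finset.card_union_le P Q
      have c3 : (P.image (fun p => n.factorization p)).card ≤ P.card := Finset.card_image_le
      omega)
  set y := sc K (E + 1) (E + 2) i with hy
  have hy0 : E + 2 ≤ y := (sc_mono K (E + 1) (E + 2)).monotone (Nat.zero_le i)
  have hcore := core (P := P) (Q := Q) (a := fun p => n.factorization p) (K := K) (R := E + 1)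
    (y := y) (Y := sc K (E + 1) (E + 2) (i + 1))
    (fun p hp => Nat.prime_of_mem_primeFactors hp) (fun q hq => Nat.prime_of_mem_primeFactors hq)
    (rel hn h) hK hR (by omega) (by omega) (le_of_eq rfl)
    (fun p hp hlt => hgap p (Finset.mem_union_left _ (Finset.mem_union_left _ hp)) hlt)
    (fun q hq hlt => hgap q (Finset.mem_union_left _ (Finset.mem_union_right _ hq)) hlt)
    (fun p hp hlt => hgap _ (Finset.mem_union_right _ (Finset.mem_image_of_mem _ hp)) hlt)
  obtain ⟨hQy, hPa⟩ := hcore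
  have hPy : ∀ p ∈ P, p ≤ y := by
    intro p hp
    have hpp := Nat.prime_of_mem_primeFactors hp
    have hdvd : p ∣ sigma 1 n * ∏ q ∈ Q, (q - 1) := by
      rw [← Nat.totient_mul_prod_primeFactors, h]
      exact (Nat.dvd_of_mem_primeFactors hp).mul_right _
    rcases (Nat.Prime.dvd_mul hpp).1 hdvd with h3 | h3
    · refine hQy p ?_
      rw [hQdef, Nat.mem_primeFactors]
      exact ⟨hpp, h3, by rw [sigma_prod hn]; exact (Finset.prod_pos fun p _ => sg_pos _ _).ne'⟩
    · obtain ⟨q, hq, hpq⟩ := (hpp.prime.dvd_finsetProd_iff _).1 h3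
      have h4 := hQy q hq
      have h5 := (Nat.prime_of_mem_primeFactors hq).two_le
      have h6 := Nat.le_of_dvd (by omega) hpq
      omega
  have hyZ : y ≤ sc K (E + 1) (E + 2) (2 * K + (E + 1)) := (sc_mono K (E + 1) (E + 2)).monotone hi
  set Z := sc K (E + 1) (E + 2) (2 * K + (E + 1)) with hZ
  calc n = ∏ p ∈ P, p ^ n.factorization p := (self_prod hn).symm
    _ ≤ (Z ^ Z) ^ P.card := by
        apply Finset.prod_le_pow_card
        intro p hp
        calc p ^ n.factorization p ≤ Z ^ n.factorization p :=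
              Nat.pow_le_pow_left ((hPy p hp).trans hyZ) _
          _ ≤ Z ^ Z := Nat.pow_le_pow_right (by omega) ((hPa p hp (hPy p hp)).trans hyZ)
    _ ≤ (Z ^ Z) ^ K := Nat.pow_le_pow_right (Nat.pow_pos (by omega)) hK

/-- bounded exponents at `2` and at the primes of `gcd (n, σ(n))` give few prime factors -/
lemma few {n E : ℕ} (hn : 0 < n) (h : Nat.totient (sigma 1 n) = n)
    (h2 : n.factorization 2 ≤ E)
    (hE : ∀ p : ℕ, p.Prime → p ∣ n → p ∣ sigma 1 n → n.factorization p ≤ E) :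
    n.primeFactors.card ≤ (E + 1) * (E + 1) := by
  classical
  set m := sigma 1 n with hm
  have hm0 : m ≠ 0 := by
    rw [hm, sigma_prod hn]; exact (Finset.prod_pos fun p _ => sg_pos _ _).ne'
  -- exponents of `m`
  have hexp : ∀ q ∈ m.primeFactors, m.factorization q ≤ E + 1 := by
    intro q hq
    have hqp := Nat.prime_of_mem_primeFactors hq
    have hf0 : 0 < m.factorization q := hqp.factorization_pos_of_dvd hm0
      (Nat.dvd_of_mem_primeFactors hq)
    have h3 : q ^ (m.factorization q - 1) ∣ n := by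
      have h4 : Nat.totient (q ^ m.factorization q) ∣ Nat.totient m :=
        Nat.totient_dvd_of_dvd (Nat.ordProj_dvd m q)
      rw [h, Nat.totient_prime_pow hqp hf0] at h4
      exact (dvd_mul_right _ _).trans h4
    rw [hqp.pow_dvd_iff_le_factorization hn.ne'] at h3
    by_cases hqn : q ∣ n
    · have := hE q hqp hqn (Nat.dvd_of_mem_primeFactors hq)
      omega
    · rw [Nat.factorization_eq_zero_of_not_dvd hqn] at h3
      omega
  -- choose a prime divisor of each `σ(p ^ a)`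
  have hsg : ∀ p ∈ n.primeFactors, sg p (n.factorization p) ≠ 1 := by
    intro p hp h1
    have hpp := Nat.prime_of_mem_primeFactors hp
    have h3 := pow_le_sg p (n.factorization p)
    have h4 : 0 < n.factorization p := hpp.factorization_pos_of_dvd hn.ne'
      (Nat.dvd_of_mem_primeFactors hp)
    have h5 : p ^ 1 ≤ p ^ n.factorization p := Nat.pow_le_pow_right hpp.pos h4
    have h6 := hpp.two_le
    rw [pow_one] at h5
    omega
  set g : ℕ → ℕ := fun p => (sg p (n.factorization p)).minFac with hg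
  have hgm : ∀ p ∈ n.primeFactors, g p ∈ m.primeFactors := by
    intro p hp
    rw [Nat.mem_primeFactors]
    refine ⟨Nat.minFac_prime (hsg p hp), ?_, hm0⟩
    refine (Nat.minFac_dvd _).trans ?_
    rw [hm, sigma_prod hn]
    exact Finset.dvd_prod_of_mem (fun p => sg p (n.factorization p)) hp
  have hfib : ∀ q ∈ m.primeFactors, (n.primeFactors.filter (fun p => g p = q)).card ≤ E + 1 := by
    intro q hq
    have hqp := Nat.prime_of_mem_primeFactors hq
    refine le_trans ?_ (hexp q hq)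
    rw [← hqp.pow_dvd_iff_le_factorization hm0]
    rw [hm, sigma_prod hn, ← Finset.prod_const]
    refine dvd_trans ?_ (Finset.prod_dvd_prod_of_subset _ _ _ (Finset.filter_subset
      (fun p => g p = q) n.primeFactors))
    apply Finset.prod_dvd_prod_of_dvd
    intro p hp
    rw [Finset.mem_filter] at hp
    rw [← hp.2]
    exact Nat.minFac_dvd _
  have h7 := Finset.card_le_mul_card_image_of_maps_to hgm (E + 1) hfib
  refine h7.trans (Nat.mul_le_mul_left _ ?_)
  exact (card_le hn h).trans (by omega)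

/-! ### The result -/

/-- Finitely many solutions of `φ(σ(n)) = n` have at most `K` distinct prime factors and
`2`-adic valuation at most `E`; finitely many solutions have all exponents at `2` and at the
primes dividing both `n` and `σ(n)` bounded by `E`; in particular, finitely many solutions have
all exponents at most `E`. -/
theorem result :
    (∀ K E : ℕ, {n : ℕ | 0 < n ∧ Nat.totient (ArithmeticFunction.sigma 1 n) = n ∧
      n.primeFactors.card ≤ K ∧ n.factorization 2 ≤ E}.Finite) ∧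
    (∀ E : ℕ, {n : ℕ | 0 < n ∧ Nat.totient (ArithmeticFunction.sigma 1 n) = n ∧
      n.factorization 2 ≤ E ∧ ∀ p : ℕ, p.Prime → p ∣ n → p ∣ ArithmeticFunction.sigma 1 n →
        n.factorization p ≤ E}.Finite) ∧
    (∀ E : ℕ, {n : ℕ | 0 < n ∧ Nat.totient (ArithmeticFunction.sigma 1 n) = n ∧
      ∀ p : ℕ, n.factorization p ≤ E}.Finite) := by
  have h1 : ∀ K E : ℕ, {n : ℕ | 0 < n ∧ Nat.totient (ArithmeticFunction.sigma 1 n) = n ∧
      n.primeFactors.card ≤ K ∧ n.factorization 2 ≤ E}.Finite := by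
    intro K E
    apply (Set.finite_Iic ((sc K (E + 1) (E + 2) (2 * K + (E + 1)) ^
      sc K (E + 1) (E + 2) (2 * K + (E + 1))) ^ K)).subset
    rintro n ⟨hn, h, hK, h2⟩
    exact bound hn h h2 hK
  have h2 : ∀ E : ℕ, {n : ℕ | 0 < n ∧ Nat.totient (ArithmeticFunction.sigma 1 n) = n ∧
      n.factorization 2 ≤ E ∧ ∀ p : ℕ, p.Prime → p ∣ n → p ∣ ArithmeticFunction.sigma 1 n →
        n.factorization p ≤ E}.Finite := by
    intro E
    apply (h1 ((E + 1) * (E + 1)) E).subset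
    rintro n ⟨hn, h, h2, hE⟩
    exact ⟨hn, h, few hn h h2 hE, h2⟩
  refine ⟨h1, h2, fun E => (h2 E).subset ?_⟩
  rintro n ⟨hn, h, hE⟩
  exact ⟨hn, h, hE 2, fun p _ _ _ => hE p⟩

end Pool.Agent.Results.MP_ed2bed_nt.FewPrimes
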