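import Pool.Agent.SmS.Core

/-!
# Exponents of solutions of `φ(σ(n)) = n`, and solutions with a given odd part

If `q ^ e` exactly divides a solution `n`, then `e + 1` divides `n`.  If `n = 2 ^ a * k` with `k`
odd and `2 ^ u` exactly divides `a + 1`, then at most `Ω(k) / 2` of the Fermat numbers
`F_0, ..., F_(u-1)` are composite.  So there are at most `6 d(k)` solutions with odd part `k` if
`261735` does not divide `k`, and at most `33 d(k)` if `k` has less than 50 prime factors.

Idea: distinct primes `r` dividing `σ(n)` satisfy `∏ (r - 1) ∣ φ(σ(n)) = n`, and `σ(q ^ e)` has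
prime factors `r` for which the order of `q` is any given prime power dividing `e + 1`.
-/

set_option autoImplicit false

open Finset ArithmeticFunction Pool.Agent.SmS

namespace Pool.Agent.Results.MP_ed2bed_nt.OddPart

/-- distinct primes dividing `σ(n)` -/
lemma prod_pred_dvd {n : ℕ} (h : Sol n) {F : Finset ℕ} (hF : ∀ r ∈ F, r.Prime)
    (hd : ∀ r ∈ F, r ∣ sigma 1 n) : ∏ r ∈ F, (r - 1) ∣ n := by
  have h1 : ∏ r ∈ F, r ∣ sigma 1 n :=
    Finset.prod_primes_dvd _ (fun r hr => (hF r hr).prime) hd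
  have h2 := Nat.totient_dvd_of_dvd h1
  rw [h.2] at h2
  have h3 : Nat.totient (∏ r ∈ F, r) = ∏ r ∈ F, (r - 1) := by
    clear h1 h2 hd
    induction F using Finset.induction_on with
    | empty => simp
    | insert a F ha ih =>
      have hc : Nat.Coprime a (∏ r ∈ F, r) := by
        apply Nat.Coprime.prod_right
        intro r hr
        rw [Nat.coprime_primes (hF a (by simp)) (hF r (by simp [hr]))]
        rintro rfl
        exact ha hr
      rw [Finset.prod_insert ha, Finset.prod_insert ha, Nat.totient_mul hc,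
        Nat.totient_prime (hF a (by simp)), ih (fun r hr => hF r (by simp [hr]))]
  rwa [h3] at h2

/-- the factor of `q ^ (l ^ (j + 1)) - 1` -/
def G (l x : ℕ) : ℕ := ∑ i ∈ range l, x ^ i

lemma G_mul (q l j : ℕ) (hq : 1 ≤ q) : G l (q ^ l ^ j) * g q (l ^ j) * (q - 1) =
    q ^ l ^ (j + 1) - 1 := by
  have h1 := g_mul (q ^ l ^ j) l (Nat.one_le_pow _ _ hq)
  have h2 : G l (q ^ l ^ j) = g (q ^ l ^ j) l := rfl
  rw [mul_assoc, g_mul q _ hq, h2, h1, ← pow_mul, ← pow_succ]

lemma G_dvd (q l j : ℕ) (hq : 2 ≤ q) : G l (q ^ l ^ j) ∣ g q (l ^ (j + 1)) := by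
  have h1 := G_mul q l j (by omega)
  have h2 := g_mul q (l ^ (j + 1)) (by omega)
  rw [← h2] at h1
  have h3 : G l (q ^ l ^ j) * g q (l ^ j) = g q (l ^ (j + 1)) :=
    Nat.eq_of_mul_eq_mul_right (by omega) h1
  rw [← h3]
  exact Dvd.intro _ rfl

/-- a prime `r ≠ l` dividing `G` has order exactly `l ^ (j + 1)` -/
lemma order_of_dvd_G {q l j r : ℕ} (hq : 2 ≤ q) (hl : l.Prime) (hr : r.Prime) (hrl : r ≠ l)
    (h : r ∣ G l (q ^ l ^ j)) : orderOf (q : ZMod r) = l ^ (j + 1) := by
  have : Fact r.Prime := ⟨hr⟩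
  have : Fact l.Prime := ⟨hl⟩
  apply orderOf_eq_prime_pow
  · intro h1
    have h2 : ((G l (q ^ l ^ j) : ℕ) : ZMod r) = (l : ZMod r) := by
      unfold G
      push_cast
      rw [h1]
      simp
    have h3 : ((G l (q ^ l ^ j) : ℕ) : ZMod r) = 0 := (ZMod.natCast_eq_zero_iff _ _).2 h
    rw [h3] at h2
    have h4 : r ∣ l := (ZMod.natCast_eq_zero_iff _ _).1 h2.symm
    exact hrl ((Nat.prime_dvd_prime_iff_eq hr hl).1 h4)
  · have h1 : r ∣ q ^ l ^ (j + 1) - 1 := by
      rw [← G_mul q l j (by omega), mul_assoc]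
      exact h.mul_right _
    have h2 : ((q ^ l ^ (j + 1) - 1 : ℕ) : ZMod r) = 0 := (ZMod.natCast_eq_zero_iff _ _).2 h1
    rw [Nat.cast_sub (Nat.one_le_pow _ _ (by omega))] at h2
    push_cast at h2
    exact sub_eq_zero.1 h2

lemma dvd_pred_of_order {q m r : ℕ} (hr : r.Prime) (hm : 0 < m)
    (h : orderOf (q : ZMod r) = m) : m ∣ r - 1 := by
  have : Fact r.Prime := ⟨hr⟩
  rw [← h]
  apply ZMod.orderOf_dvd_card_sub_one
  intro h0
  rw [h0] at h
  have : orderOf (0 : ZMod r) = 0 := by
    rw [orderOf_eq_zero_iff']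
    intro n hn h1
    rw [zero_pow hn.ne'] at h1
    exact zero_ne_one h1
  omega

/-- `G` has a prime factor different from the odd prime `l` -/
lemma exists_prime_G {x l : ℕ} (hx : 2 ≤ x) (hl : l.Prime) (hl2 : l ≠ 2) :
    ∃ r : ℕ, r.Prime ∧ r ≠ l ∧ r ∣ G l x := by
  have hl3 : 3 ≤ l := by
    have := hl.two_le
    omega
  have hbig : l < G l x := by
    have h1 := g_mul x l (by omega)
    have h2 : G l x = g x l := rfl
    unfold G
    calc l = ∑ i ∈ range l, 1 := by simp
      _ < ∑ i ∈ range l, x ^ i := by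
        apply Finset.sum_lt_sum
        · intro i _
          exact Nat.one_le_pow _ _ (by omega)
        · exact ⟨1, by simp; omega, by simp; omega⟩
  have hsq : ¬ l * l ∣ G l x := by
    intro hd
    have hdl : l ∣ G l x := (Dvd.intro _ rfl).trans hd
    have : Fact l.Prime := ⟨hl⟩
    -- `x ≡ 1` modulo `l`
    have h1 : l ∣ x ^ l - 1 := by
      have h2 := g_mul x l (by omega)
      rw [← h2]
      exact Dvd.dvd.mul_right hdl _
    have h2 : ((x ^ l - 1 : ℕ) : ZMod l) = 0 := (ZMod.natCast_eq_zero_iff _ _).2 h1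
    rw [Nat.cast_sub (Nat.one_le_pow _ _ (by omega))] at h2
    push_cast at h2
    rw [ZMod.pow_card] at h2
    have h3 : ((x - 1 : ℕ) : ZMod l) = 0 := by
      rw [Nat.cast_sub (by omega)]
      push_cast
      exact h2
    obtain ⟨y, hy⟩ := (ZMod.natCast_eq_zero_iff _ _).1 h3
    have hxy : x = 1 + l * y := by omega
    -- expand modulo `l ^ 2`
    have key : ∀ i : ℕ, ((l * l : ℕ) : ℤ) ∣ (x : ℤ) ^ i - (1 + i * l * y) := by
      intro i
      induction i with
      | zero => simp
      | succ i ih =>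
        obtain ⟨c, hc⟩ := ih
        refine ⟨c * x + i * y * y, ?_⟩
        have h4 : (x : ℤ) ^ i = (l * l : ℕ) * c + (1 + i * l * y) := by linarith
        rw [pow_succ, h4, hxy]
        push_cast
        ring
    have h5 : ((l * l : ℕ) : ℤ) ∣ (G l x : ℤ) - ∑ i ∈ range l, (1 + (i : ℤ) * l * y) := by
      unfold G
      push_cast
      rw [← Finset.sum_sub_distrib]
      apply Finset.dvd_sum
      intro i _
      have := key i
      push_cast at this
      exact this
    have h6 : ∑ i ∈ range l, (1 + (i : ℤ) * l * y) = l + (l * y) * ∑ i ∈ range l, (i : ℤ) := by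
      rw [Finset.sum_add_distrib, Finset.mul_sum]
      simp only [Finset.sum_const, Finset.card_range, nsmul_eq_mul, mul_one]
      congr 1
      apply Finset.sum_congr rfl
      intro i _
      ring
    obtain ⟨m, hm⟩ : Odd l := hl.odd_of_ne_two hl2
    have h7 : (∑ i ∈ range l, (i : ℤ)) = l * m := by
      have h8 := Finset.sum_range_id_mul_two l
      have h9 : (∑ i ∈ range l, i) * 2 = (l * m) * 2 := by
        rw [h8]
        have : l - 1 = 2 * m := by omega
        rw [this]; ring
      have h10 : ∑ i ∈ range l, i = l * m := Nat.eq_of_mul_eq_mul_right (by norm_num) h9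
      have h11 := congrArg (Nat.cast : ℕ → ℤ) h10
      push_cast at h11
      exact h11
    rw [h6, h7] at h5
    have h8 : ((l * l : ℕ) : ℤ) ∣ (G l x : ℤ) := by exact_mod_cast hd
    have h9 : ((l * l : ℕ) : ℤ) ∣ (l : ℤ) := by
      have h10 : (l : ℤ) = (G l x : ℤ) - ((G l x : ℤ) - (l + (l * y) * (l * m))) -
        ((l * l : ℕ) : ℤ) * (y * m) := by push_cast; ring
      rw [h10]
      exact dvd_sub (dvd_sub h8 h5) (Dvd.intro _ rfl)
    have h10 : l * l ∣ l := by exact_mod_cast h9
    have h11 := Nat.le_of_dvd hl.pos h10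
    nlinarith
  by_contra hno
  push Not at hno
  -- all prime factors equal `l`
  have h1 : G l x = l ^ (G l x).factorization l := by
    have h2 : G l x ≠ 0 := by omega
    conv_lhs => rw [← Nat.prod_factorization_pow_eq_self h2]
    rw [Finsupp.prod_of_support_subset (s := {l})]
    · simp
    · intro p hp
      rw [Nat.support_factorization, Nat.mem_primeFactors] at hp
      rw [Finset.mem_singleton]
      by_contra hpl
      exact hno p hp.1 hpl hp.2.1
    · intro i _; simp
  have h3 : (G l x).factorization l ≤ 1 := by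
    by_contra hc
    apply hsq
    rw [h1, ← pow_two]
    exact pow_dvd_pow _ (by omega)
  have h4 : G l x ≤ l ^ 1 := by
    rw [h1]
    exact Nat.pow_le_pow_right hl.pos h3
  rw [pow_one] at h4
  omega

/-- powers of an odd prime dividing `v_q(n) + 1` -/
lemma pow_dvd_odd {n q l t : ℕ} (h : Sol n) (hq : q.Prime) (hl : l.Prime) (hl2 : l ≠ 2)
    (ht : l ^ t ∣ n.factorization q + 1) : l ^ (t * (t + 1) / 2) ∣ n := by
  have hex : ∀ j : ℕ, ∃ r : ℕ, r.Prime ∧ r ≠ l ∧ r ∣ G l (q ^ l ^ j) := by
    intro j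
    apply exists_prime_G _ hl hl2
    calc 2 ≤ q := hq.two_le
      _ = q ^ 1 := (pow_one q).symm
      _ ≤ q ^ l ^ j := Nat.pow_le_pow_right hq.pos (Nat.one_le_pow _ _ hl.pos)
  choose r hr hrl hrd using hex
  have hord : ∀ j, orderOf (q : ZMod (r j)) = l ^ (j + 1) := fun j =>
    order_of_dvd_G hq.two_le hl (hr j) (hrl j) (hrd j)
  have hinj : ∀ i j, r i = r j → i = j := by
    intro i j hij
    have h1 := hord i
    rw [hij, hord j] at h1
    have h2 := Nat.pow_right_injective hl.two_le h1
    omega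
  have hdvd : ∀ j, l ^ (j + 1) ∣ r j - 1 := fun j =>
    dvd_pred_of_order (hr j) (pow_pos hl.pos _) (hord j)
  have h1 : ∏ p ∈ (range t).image r, (p - 1) ∣ n := by
    apply prod_pred_dvd h
    · intro p hp
      obtain ⟨j, _, rfl⟩ := Finset.mem_image.1 hp
      exact hr j
    · intro p hp
      obtain ⟨j, hj, rfl⟩ := Finset.mem_image.1 hp
      rw [Finset.mem_range] at hj
      refine ((hrd j).trans (G_dvd q l j hq.two_le)).trans (g_dvd_sigma h.1 hq ?_)
      exact (pow_dvd_pow l (by omega)).trans ht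
  rw [Finset.prod_image (fun i _ j _ hij => hinj i j hij)] at h1
  have h2 : ∏ j ∈ range t, l ^ (j + 1) ∣ ∏ j ∈ range t, (r j - 1) :=
    Finset.prod_dvd_prod_of_dvd _ _ (fun j _ => hdvd j)
  have h3 : ∏ j ∈ range t, l ^ (j + 1) = l ^ (t * (t + 1) / 2) := by
    rw [Finset.prod_pow_eq_pow_sum]
    congr 1
    have h4 : ∀ t : ℕ, ∑ j ∈ range t, (j + 1) = t * (t + 1) / 2 := by
      intro t
      induction t with
      | zero => simp
      | succ t ih =>
        rw [Finset.sum_range_succ, ih]
        have h5 : (t + 1) * (t + 1 + 1) = t * (t + 1) + 2 * (t + 1) := by ring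
        rw [h5]
        omega
    exact h4 t
  rw [← h3]
  exact h2.trans h1

lemma even_of_sol {n : ℕ} (h : Sol n) (h1 : 1 < n) : 2 ∣ n := by
  have h2 : 2 < sigma 1 n := by
    rw [sigma_one_apply]
    have h3 : ({1, n} : Finset ℕ) ⊆ n.divisors := by
      intro x hx
      rcases Finset.mem_insert.1 hx with rfl | hx
      · simp; omega
      · rw [Finset.mem_singleton] at hx
        subst hx
        simp; omega
    have h4 := Finset.sum_le_sum_of_subset (f := fun x : ℕ => x) h3
    rw [Finset.sum_pair (by omega)] at h4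
    omega
  have h3 := Nat.totient_even h2
  rw [h.2] at h3
  exact h3.two_dvd

/-- powers of two dividing `v_q(n) + 1` -/
lemma pow_dvd_two {n q t : ℕ} (h : Sol n) (hq : q.Prime) (h1 : 1 < n)
    (ht : 2 ^ t ∣ n.factorization q + 1) : 2 ^ t ∣ n := by
  rcases Nat.lt_or_ge t 2 with h2 | h2
  · interval_cases t
    · simp
    · simpa using even_of_sol h h1
  · obtain ⟨s, rfl⟩ := Nat.exists_eq_add_of_le h2
    have hG : G 2 (q ^ 2 ^ (s + 1)) = (q ^ 2 ^ s) ^ 2 + 1 := by
      unfold G
      rw [Finset.sum_range_succ, Finset.sum_range_one, pow_zero, pow_one, pow_succ 2 s, pow_mul]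
      ring
    set x := q ^ 2 ^ s with hx
    have hx2 : 2 ≤ x := by
      calc 2 ≤ q := hq.two_le
        _ = q ^ 1 := (pow_one q).symm
        _ ≤ q ^ 2 ^ s := Nat.pow_le_pow_right hq.pos Nat.one_le_two_pow
    -- an odd prime factor of `x ^ 2 + 1`
    have hr : ∃ r : ℕ, r.Prime ∧ r ≠ 2 ∧ r ∣ x ^ 2 + 1 := by
      by_contra hno
      push Not at hno
      have h3 : x ^ 2 + 1 ≠ 0 := by positivity
      have h4 : x ^ 2 + 1 = 2 ^ (x ^ 2 + 1).factorization 2 := by
        conv_lhs => rw [← Nat.prod_factorization_pow_eq_self h3]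
        rw [Finsupp.prod_of_support_subset (s := {2})]
        · simp
        · intro p hp
          rw [Nat.support_factorization, Nat.mem_primeFactors] at hp
          rw [Finset.mem_singleton]
          by_contra hpl
          exact hno p hp.1 hpl hp.2.1
        · intro i _; simp
      have h5 : ¬ 4 ∣ x ^ 2 + 1 := by
        intro h6
        rcases Nat.even_or_odd' x with ⟨c, hc | hc⟩
        · rw [hc] at h6
          have : (2 * c) ^ 2 + 1 = 4 * (c ^ 2) + 1 := by ring
          rw [this] at h6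
          omega
        · rw [hc] at h6
          have : (2 * c + 1) ^ 2 + 1 = 4 * (c ^ 2 + c) + 2 := by ring
          rw [this] at h6
          omega
      have h6 : (x ^ 2 + 1).factorization 2 ≤ 1 := by
        by_contra hc
        apply h5
        rw [h4]
        exact (pow_dvd_pow 2 (by omega : 2 ≤ (x ^ 2 + 1).factorization 2))
      have h7 : x ^ 2 + 1 ≤ 2 ^ 1 := by
        rw [h4]
        exact Nat.pow_le_pow_right (by norm_num) h6
      nlinarith
    obtain ⟨r, hr, hr2, hrd⟩ := hr
    rw [← hG] at hrd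
    have h3 := order_of_dvd_G hq.two_le Nat.prime_two hr hr2 hrd
    have h4 := dvd_pred_of_order hr (by positivity) h3
    have h5 : r ∣ sigma 1 n := by
      refine (hrd.trans (G_dvd q 2 (s + 1) hq.two_le)).trans (g_dvd_sigma h.1 hq ?_)
      have : s + 1 + 1 = 2 + s := by ring
      rw [this]
      exact ht
    have h6 := h.pred_dvd hr h5
    have h7 : 2 + s = s + 1 + 1 := by ring
    rw [h7]
    exact h4.trans h6

/-- `e + 1` divides `n` for every prime power `q ^ e` exactly dividing the solution `n` -/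
lemma succ_dvd {n q : ℕ} (h : Sol n) (hq : q.Prime) (hn : 1 < n) : n.factorization q + 1 ∣ n := by
  rw [Nat.dvd_iff_prime_pow_dvd_dvd]
  intro p k hp hpk
  by_cases hp2 : p = 2
  · subst hp2
    exact pow_dvd_two h hq hn hpk
  · have h1 := pow_dvd_odd h hq hp hp2 hpk
    refine (pow_dvd_pow p ?_).trans h1
    rcases Nat.eq_zero_or_pos k with rfl | hk
    · simp
    · have : k * 2 ≤ k * (k + 1) := Nat.mul_le_mul_left k (by omega)
      omega

/-! ### Fermat numbers -/

lemma fermat_dvd {n u j : ℕ} (h : Sol n) (hu : 2 ^ u ∣ n.factorization 2 + 1) (hj : j < u) :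
    Nat.fermatNumber j ∣ sigma 1 n := by
  have h1 : Nat.fermatNumber j = G 2 (2 ^ 2 ^ j) := by
    unfold G Nat.fermatNumber
    rw [Finset.sum_range_succ, Finset.sum_range_one]
    ring
  rw [h1]
  refine (G_dvd 2 2 j le_rfl).trans (g_dvd_sigma h.1 Nat.prime_two ?_)
  exact (pow_dvd_pow 2 (by omega)).trans hu

lemma prod_fermat_dvd {u z : ℕ} (h : ∀ j < u, Nat.fermatNumber j ∣ z) :
    ∏ j ∈ range u, Nat.fermatNumber j ∣ z := by
  induction u with
  | zero => simp
  | succ u ih =>
    rw [Finset.prod_range_succ]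
    apply Nat.Coprime.mul_dvd_of_dvd_of_dvd
    · apply Nat.Coprime.prod_left
      intro i hi
      rw [Finset.mem_range] at hi
      exact Nat.coprime_fermatNumber_fermatNumber (by omega)
    · exact ih (fun j hj => h j (by omega))
    · exact h u (by omega)

lemma totient_prod_fermat (u : ℕ) : Nat.totient (∏ j ∈ range u, Nat.fermatNumber j) =
    ∏ j ∈ range u, Nat.totient (Nat.fermatNumber j) := by
  induction u with
  | zero => simp
  | succ u ih =>
    rw [Finset.prod_range_succ, Finset.prod_range_succ, Nat.totient_mul, ih]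
    apply Nat.Coprime.prod_left
    intro i hi
    rw [Finset.mem_range] at hi
    exact Nat.coprime_fermatNumber_fermatNumber (by omega)

/-- a prime factor of a composite Fermat number is not a power of two plus one -/
lemma odd_pred {j r : ℕ} (hr : r.Prime) (hd : r ∣ Nat.fermatNumber j)
    (hj : ¬ (Nat.fermatNumber j).Prime) : ∃ x : ℕ, Odd x ∧ 1 < x ∧ x ∣ r - 1 := by
  have hr2 : r ≠ 2 := by
    rintro rfl
    have := Nat.odd_fermatNumber j
    rw [Nat.odd_iff] at this
    omega
  have hr0 : r - 1 ≠ 0 := by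
    have := hr.two_le
    omega
  obtain ⟨i, x, hx, hrx⟩ := Nat.exists_eq_two_pow_mul_odd hr0
  refine ⟨x, hx, ?_, by rw [hrx]; exact Dvd.intro_left _ rfl⟩
  rcases Nat.lt_or_ge 1 x with h1 | h1
  · exact h1
  exfalso
  have hx1 : x = 1 := by
    have : x ≠ 0 := by rintro rfl; simp at hx
    omega
  rw [hx1, mul_one] at hrx
  have hri : r = 2 ^ i + 1 := by
    have := hr.two_le
    omega
  have hi : i ≠ 0 := by
    rintro rfl
    rw [pow_zero] at hri
    exact hr2 hri
  rw [hri] at hr
  obtain ⟨m, hm⟩ := Nat.pow_of_pow_add_prime (by norm_num) hi hr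
  have hrF : r = Nat.fermatNumber m := by
    rw [hri, hm, Nat.fermatNumber]
  by_cases hmj : m = j
  · subst hmj
    rw [← hrF, hri] at hj
    exact hj hr
  · have h2 := Nat.coprime_fermatNumber_fermatNumber hmj
    rw [← hrF] at h2
    have h3 : r ∣ 1 := by
      rw [← h2.gcd_eq_one]
      exact Nat.dvd_gcd dvd_rfl hd
    have h4 := Nat.dvd_one.1 h3
    rw [h4] at hri
    have : 1 ≤ 2 ^ i := Nat.one_le_two_pow
    omega

/-- the totient of a composite Fermat number has two odd factors -/
lemma two_odd {j : ℕ} (hj : ¬ (Nat.fermatNumber j).Prime) :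
    ∃ x y : ℕ, Odd x ∧ Odd y ∧ 1 < x ∧ 1 < y ∧ x * y ∣ Nat.totient (Nat.fermatNumber j) := by
  have h1 := Nat.fermatNumber_ne_one j
  set r := (Nat.fermatNumber j).minFac with hr0
  have hr : r.Prime := Nat.minFac_prime h1
  have hrd : r ∣ Nat.fermatNumber j := Nat.minFac_dvd _
  obtain ⟨c, hc⟩ := hrd
  obtain ⟨x, hx, hx1, hxd⟩ := odd_pred hr (Dvd.intro _ hc.symm) hj
  have hrodd : Odd r := by
    apply hr.odd_of_ne_two
    intro h2
    have := Nat.odd_fermatNumber j
    rw [hc, h2, Nat.odd_iff] at this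
    omega
  by_cases hrc : r ∣ c
  · refine ⟨r, x, hrodd, hx, hr.one_lt, hx1, ?_⟩
    rw [hc, Nat.totient_mul_of_prime_of_dvd hr hrc]
    apply mul_dvd_mul_left
    have h2 := Nat.totient_dvd_of_dvd hrc
    rw [Nat.totient_prime hr] at h2
    exact hxd.trans h2
  · have hc1 : c ≠ 1 := by
      rintro rfl
      rw [mul_one] at hc
      rw [hc] at hj
      exact hj hr
    obtain ⟨s, hs, hsc⟩ := Nat.exists_prime_and_dvd hc1
    obtain ⟨y, hy, hy1, hyd⟩ := odd_pred hs (hsc.trans (Dvd.intro_left _ hc.symm)) hj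
    refine ⟨x, y, hx, hy, hx1, hy1, ?_⟩
    rw [hc, Nat.totient_mul ((hr.coprime_iff_not_dvd).2 hrc), Nat.totient_prime hr]
    apply mul_dvd_mul hxd
    have h2 := Nat.totient_dvd_of_dvd hsc
    rw [Nat.totient_prime hs] at h2
    exact hyd.trans h2

lemma omega_pos {x : ℕ} (hx : 1 < x) : 1 ≤ cardFactors x := by
  rw [Nat.one_le_iff_ne_zero]
  intro h
  rw [cardFactors_eq_zero_iff_eq_zero_or_one] at h
  omega

lemma omega_mono {x y : ℕ} (hy : y ≠ 0) (h : x ∣ y) : cardFactors x ≤ cardFactors y := by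
  obtain ⟨c, rfl⟩ := h
  rw [cardFactors_mul (left_ne_zero_of_mul hy) (right_ne_zero_of_mul hy)]
  omega

/-- products of natural numbers with a product of odd parts dividing an odd number -/
lemma omega_sum (f : ℕ → ℕ) (C : Finset ℕ) (k : ℕ) (hk : k ≠ 0)
    (hf : ∀ j ∈ C, ∃ x y : ℕ, Odd x ∧ Odd y ∧ 1 < x ∧ 1 < y ∧ x * y ∣ f j)
    (a : ℕ) (hd : ∏ j ∈ C, f j ∣ 2 ^ a * k) : 2 * C.card ≤ cardFactors k := by
  have h1 : ∀ j : ℕ, ∃ b : ℕ, j ∈ C → (Odd b ∧ 2 ≤ cardFactors b ∧ b ∣ f j) := by
    intro j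
    by_cases hj : j ∈ C
    · obtain ⟨x, y, hx, hy, hx1, hy1, hxy⟩ := hf j hj
      refine ⟨x * y, fun _ => ⟨hx.mul hy, ?_, hxy⟩⟩
      rw [cardFactors_mul (by omega) (by omega)]
      have := omega_pos hx1
      have := omega_pos hy1
      omega
    · exact ⟨0, fun h => absurd h hj⟩
  choose b hb using h1
  have h2 : ∏ j ∈ C, b j ∣ 2 ^ a * k :=
    (Finset.prod_dvd_prod_of_dvd _ _ (fun j hj => (hb j hj).2.2)).trans hd
  have h3 : Odd (∏ j ∈ C, b j) := by
    clear h2 hd hf
    induction C using Finset.induction_on with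
    | empty => simp
    | insert i C hi ih =>
      rw [Finset.prod_insert hi]
      exact (hb i (by simp)).1.mul (ih (fun j hj => hb j (by simp [hj])))
  have h4 : ∏ j ∈ C, b j ∣ k := by
    apply Nat.Coprime.dvd_of_dvd_mul_left _ h2
    exact Nat.Coprime.pow_right _ (Nat.coprime_two_right.2 h3)
  have h5 := omega_mono hk h4
  have h6 : 2 * C.card ≤ cardFactors (∏ j ∈ C, b j) := by
    clear h2 hd hf h4 h5 h3
    induction C using Finset.induction_on with
    | empty => simp
    | insert i C hi ih =>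
      rw [Finset.prod_insert hi, Finset.card_insert_of_notMem hi]
      have h7 := ih (fun j hj => hb j (by simp [hj]))
      have h8 := hb i (by simp)
      have h9 : b i ≠ 0 := by
        intro h0
        rw [h0] at h8
        simp at h8
      have h10 : ∏ j ∈ C, b j ≠ 0 := by
        apply Finset.prod_ne_zero_iff.2
        intro j hj h0
        have := (hb j (by simp [hj])).1
        rw [h0] at this
        simp at this
      rw [cardFactors_mul h9 h10]
      omega
  omega

/-- the composite Fermat numbers below `u` -/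
lemma card_composite {a k u : ℕ} (hk : Odd k) (h : Sol (2 ^ a * k)) (hu : 2 ^ u ∣ a + 1) :
    2 * ((range u).filter (fun j => ¬ (Nat.fermatNumber j).Prime)).card ≤ cardFactors k := by
  have hk0 : k ≠ 0 := by rintro rfl; simp at hk
  have hfac : (2 ^ a * k).factorization 2 = a := by
    rw [Nat.factorization_mul (by positivity) hk0]
    simp only [Finsupp.coe_add, Pi.add_apply]
    rw [Nat.Prime.factorization_pow Nat.prime_two, Finsupp.single_eq_same,
      Nat.factorization_eq_zero_of_not_dvd (by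
        intro h2
        rw [Nat.odd_iff] at hk
        omega)]
    omega
  apply omega_sum (fun j => Nat.totient (Nat.fermatNumber j)) _ k hk0
  · intro j hj
    rw [Finset.mem_filter] at hj
    exact two_odd hj.2
  · have h1 : ∏ j ∈ range u, Nat.fermatNumber j ∣ sigma 1 (2 ^ a * k) :=
      prod_fermat_dvd (fun j hj => fermat_dvd h (by rw [hfac]; exact hu) hj)
    have h2 := Nat.totient_dvd_of_dvd h1
    rw [h.2, totient_prod_fermat] at h2
    exact (Finset.prod_dvd_prod_of_subset _ _ _ (Finset.filter_subset _ _)).trans h2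

/-- repeated squaring modulo `r` -/
def sq (r : ℕ) : ℕ → ℕ
  | 0 => 2 % r
  | j + 1 => (sq r j) ^ 2 % r

lemma sq_modEq (r j : ℕ) : sq r j ≡ 2 ^ 2 ^ j [MOD r] := by
  induction j with
  | zero => simpa [sq] using Nat.mod_modEq 2 r
  | succ j ih =>
    rw [sq, pow_succ 2 j, pow_mul]
    exact (Nat.mod_modEq _ _).trans (ih.pow 2)

/-- check of a factor of a Fermat number -/
def facChk (c : ℕ × ℕ) : Bool :=
  Nat.beq ((sq c.2 c.1 + 1) % c.2) 0 && Nat.ble 2 c.2 && Nat.ble c.2 (2 ^ 2 ^ (min c.1 8))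

lemma facChk_sound {c : ℕ × ℕ} (h : facChk c = true) : ¬ (Nat.fermatNumber c.1).Prime := by
  unfold facChk at h
  simp only [Bool.and_eq_true, Nat.beq_eq, Nat.ble_eq] at h
  obtain ⟨⟨h1, h2⟩, h3⟩ := h
  have h4 : c.2 ∣ Nat.fermatNumber c.1 := by
    apply Nat.dvd_of_mod_eq_zero
    rw [← h1]
    exact ((sq_modEq c.2 c.1).add_right 1).symm
  have h5 : c.2 ≤ 2 ^ 2 ^ c.1 := h3.trans
    (Nat.pow_le_pow_right (by norm_num) (Nat.pow_le_pow_right (by norm_num) (min_le_left _ _)))
  intro hp
  rcases (Nat.dvd_prime hp).1 h4 with h6 | h6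
  · omega
  · rw [h6, Nat.fermatNumber] at h5
    omega

/-- factors of 25 Fermat numbers -/
def facs : List (ℕ × ℕ) := [
  (5, 641), (6, 274177), (7, 59649589127497217), (8, 1238926361552897), (9, 2424833),
  (10, 45592577), (11, 319489), (12, 114689), (13, 2710954639361),
  (14, 116928085873074369829035993834596371340386703423373313), (15, 1214251009),
  (16, 825753601), (17, 31065037602817), (18, 13631489), (19, 70525124609),
  (21, 4485296422913), (22, 64658705994591851009055774868504577), (23, 167772161),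
  (25, 25991531462657), (27, 151413703311361), (28, 1766730974551267606529),
  (29, 2405286912458753), (30, 640126220763137), (31, 46931635677864055013377),
  (32, 25409026523137)]

lemma facs_chk : facs.all facChk = true := by
  decide +kernel

lemma le_card_composite {u : ℕ} (hu : 33 ≤ u) :
    25 ≤ ((range u).filter (fun j => ¬ (Nat.fermatNumber j).Prime)).card := by
  have h1 : (facs.map Prod.fst).toFinset ⊆
      (range u).filter (fun j => ¬ (Nat.fermatNumber j).Prime) := by
    intro j hj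
    rw [List.mem_toFinset, List.mem_map] at hj
    obtain ⟨c, hc, rfl⟩ := hj
    rw [Finset.mem_filter, Finset.mem_range]
    refine ⟨?_, facChk_sound (List.all_eq_true.1 facs_chk c hc)⟩
    have h2 : (facs.all fun c => Nat.blt c.1 33) = true := by decide +kernel
    have h3 := List.all_eq_true.1 h2 c hc
    have h4 : c.1 < 33 := by simpa [Nat.blt_eq] using h3
    omega
  have h2 : (facs.map Prod.fst).toFinset.card = 25 := by decide +kernel
  rw [← h2]
  exact Finset.card_le_card h1

lemma fermat_five {a k : ℕ} (hk : Odd k) (h : Sol (2 ^ a * k)) (hu : 2 ^ 6 ∣ a + 1) :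
    261735 ∣ k := by
  have hk0 : k ≠ 0 := by rintro rfl; simp at hk
  have hfac : (2 ^ a * k).factorization 2 = a := by
    rw [Nat.factorization_mul (by positivity) hk0]
    simp only [Finsupp.coe_add, Pi.add_apply]
    rw [Nat.Prime.factorization_pow Nat.prime_two, Finsupp.single_eq_same,
      Nat.factorization_eq_zero_of_not_dvd (by
        intro h2
        rw [Nat.odd_iff] at hk
        omega)]
    omega
  have h1 : Nat.fermatNumber 5 ∣ sigma 1 (2 ^ a * k) :=
    fermat_dvd h (by rw [hfac]; exact hu) (by norm_num)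
  have h2 : Nat.fermatNumber 5 = 641 * 6700417 := by
    rw [Nat.fermatNumber]; norm_num
  have h3 : ∏ r ∈ ({641, 6700417} : Finset ℕ), (r - 1) ∣ 2 ^ a * k := by
    apply prod_pred_dvd h
    · intro r hr
      rcases Finset.mem_insert.1 hr with rfl | hr
      · norm_num
      · rw [Finset.mem_singleton] at hr
        subst hr
        norm_num
    · intro r hr
      refine Dvd.dvd.trans ?_ h1
      rw [h2]
      rcases Finset.mem_insert.1 hr with rfl | hr
      · exact Dvd.intro _ rfl
      · rw [Finset.mem_singleton] at hr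
        subst hr
        exact Dvd.intro_left _ rfl
  rw [Finset.prod_pair (by norm_num)] at h3
  have h4 : 261735 ∣ 2 ^ a * k := Dvd.dvd.trans ⟨16384, by norm_num⟩ h3
  apply Nat.Coprime.dvd_of_dvd_mul_left _ h4
  exact Nat.Coprime.pow_right _ (by norm_num)

/-- the structure of the exponent of two -/
lemma structure_two {a k : ℕ} (hk : Odd k) (h : Sol (2 ^ a * k)) :
    ∃ u s : ℕ, a + 1 = 2 ^ u * s ∧ Odd s ∧ s ∣ k ∧
      2 * ((range u).filter (fun j => ¬ (Nat.fermatNumber j).Prime)).card ≤ cardFactors k ∧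
      (¬ 261735 ∣ k → u ≤ 5) ∧ (cardFactors k < 50 → u ≤ 32) := by
  have hk0 : k ≠ 0 := by rintro rfl; simp at hk
  obtain ⟨u, s, hs, hus⟩ := Nat.exists_eq_two_pow_mul_odd (n := a + 1) (by omega)
  have hu : 2 ^ u ∣ a + 1 := by rw [hus]; exact Dvd.intro _ rfl
  have hsk : s ∣ k := by
    rcases Nat.lt_or_ge 1 (2 ^ a * k) with h1 | h1
    · have h2 := succ_dvd h Nat.prime_two h1
      have hfac : (2 ^ a * k).factorization 2 = a := by
        rw [Nat.factorization_mul (by positivity) hk0]
        simp only [Finsupp.coe_add, Pi.add_apply]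
        rw [Nat.Prime.factorization_pow Nat.prime_two, Finsupp.single_eq_same,
          Nat.factorization_eq_zero_of_not_dvd (by
            intro h2
            rw [Nat.odd_iff] at hk
            omega)]
        omega
      rw [hfac, hus] at h2
      have h3 : s ∣ 2 ^ a * k := (Dvd.intro_left _ rfl).trans h2
      apply Nat.Coprime.dvd_of_dvd_mul_left _ h3
      exact Nat.Coprime.pow_right _ (Nat.coprime_two_right.2 hs)
    · have ha : a = 0 := by
        by_contra ha
        have h2 : 2 ^ 1 ≤ 2 ^ a := Nat.pow_le_pow_right (by norm_num) (by omega)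
        have h3 : 1 ≤ k := by omega
        have h4 := Nat.mul_le_mul h2 h3
        omega
      rw [ha] at hus
      have h2 : s ∣ 1 := ⟨2 ^ u, by rw [mul_comm]; exact hus⟩
      rw [Nat.dvd_one.1 h2]
      exact one_dvd _
  have hcard := card_composite hk h hu
  refine ⟨u, s, hus, hs, hsk, hcard, ?_, ?_⟩
  · intro hnd
    by_contra hc
    apply hnd
    apply fermat_five hk h
    exact (pow_dvd_pow 2 (by omega)).trans hu
  · intro hlt
    by_contra hc
    have := le_card_composite (u := u) (by omega)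
    omega

/-- counting the exponents -/
lemma count {k U : ℕ} (hk : k ≠ 0) (P : ℕ → Prop)
    (h : ∀ a, P a → ∃ u s : ℕ, a + 1 = 2 ^ u * s ∧ s ∣ k ∧ u ≤ U) :
    {a : ℕ | P a}.encard ≤ ((U + 1) * k.divisors.card : ℕ) := by
  have h1 : {a : ℕ | P a} ⊆
      (((range (U + 1)) ×ˢ k.divisors).image (fun x : ℕ × ℕ => 2 ^ x.1 * x.2 - 1) : Finset ℕ) := by
    intro a ha
    obtain ⟨u, s, h1, h2, h3⟩ := h a ha
    rw [Finset.mem_coe, Finset.mem_image]
    refine ⟨(u, s), ?_, ?_⟩
    · rw [Finset.mem_product]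
      exact ⟨Finset.mem_range.2 (by omega), Nat.mem_divisors.2 ⟨h2, hk⟩⟩
    · show 2 ^ u * s - 1 = a
      omega
  refine (Set.encard_le_encard h1).trans ?_
  rw [Set.encard_coe_eq_coe_finsetCard]
  have h2 := Finset.card_image_le (s := (range (U + 1)) ×ˢ k.divisors)
    (f := fun x : ℕ × ℕ => 2 ^ x.1 * x.2 - 1)
  rw [Finset.card_product, Finset.card_range] at h2
  exact_mod_cast h2

theorem result :
    (∀ n : ℕ, 0 < n → Nat.totient (sigma 1 n) = n → ∀ q ∈ n.primeFactors,
      n.factorization q + 1 ∣ n ∧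
      ∀ l t : ℕ, l.Prime → l ≠ 2 → l ^ t ∣ n.factorization q + 1 →
        l ^ (t * (t + 1) / 2) ∣ n) ∧
    (∀ k : ℕ, Odd k →
      (∀ a : ℕ, Nat.totient (sigma 1 (2 ^ a * k)) = 2 ^ a * k →
        ∃ u s : ℕ, a + 1 = 2 ^ u * s ∧ Odd s ∧ s ∣ k ∧
          2 * ((range u).filter (fun j => ¬ (Nat.fermatNumber j).Prime)).card ≤
            cardFactors k) ∧
      (¬ 261735 ∣ k → {a : ℕ | Nat.totient (sigma 1 (2 ^ a * k)) = 2 ^ a * k}.encard ≤
        (6 * k.divisors.card : ℕ)) ∧
      (cardFactors k < 50 → {a : ℕ | Nat.totient (sigma 1 (2 ^ a * k)) = 2 ^ a * k}.encard ≤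
        (33 * k.divisors.card : ℕ))) := by
  refine ⟨?_, ?_⟩
  · intro n hn h q hq
    have hs : Sol n := ⟨hn, h⟩
    have hqp := Nat.prime_of_mem_primeFactors hq
    have hn1 : 1 < n := by
      have h1 := Nat.le_of_dvd hn (Nat.dvd_of_mem_primeFactors hq)
      have h2 := hqp.two_le
      omega
    exact ⟨succ_dvd hs hqp hn1, fun l t hl hl2 ht => pow_dvd_odd hs hqp hl hl2 ht⟩
  · intro k hk
    have hk0 : k ≠ 0 := by rintro rfl; simp at hk
    have hsol : ∀ a : ℕ, Nat.totient (sigma 1 (2 ^ a * k)) = 2 ^ a * k → Sol (2 ^ a * k) :=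
      fun a h => ⟨Nat.pos_of_ne_zero (by positivity), h⟩
    refine ⟨?_, ?_, ?_⟩
    · intro a h
      obtain ⟨u, s, h1, h2, h3, h4, -, -⟩ := structure_two hk (hsol a h)
      exact ⟨u, s, h1, h2, h3, h4⟩
    · intro hnd
      apply count hk0
      intro a h
      obtain ⟨u, s, h1, h2, h3, -, h5, -⟩ := structure_two hk (hsol a h)
      exact ⟨u, s, h1, h3, h5 hnd⟩
    · intro hlt
      apply count hk0
      intro a h
      obtain ⟨u, s, h1, h2, h3, -, -, h6⟩ := structure_two hk (hsol a h)
      exact ⟨u, s, h1, h3, h6 hlt⟩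

end Pool.Agent.Results.MP_ed2bed_nt.OddPart
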