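import Pool.Agent.SmS.M31

/-!
# All solutions of `φ(σ(n)) = n` without prime factors above 31

There are exactly 82 positive integers `n` with `φ(σ(n)) = n` all of whose prime factors are
at most 31.  The 36 solutions of the problem file are among them, the other 46 are not in its list.

Idea: a prime `r` dividing `m = σ(n)` satisfies `r - 1 ∣ n`, and `r ^ 2 ∣ m` implies `r ∣ n`.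
If `q ^ e` exactly divides `n`, then `(q ^ d - 1) / (q - 1)` divides `m` for every `d ∣ e + 1`;
its part prime to 2, 3, ..., 31 is squarefree, with smooth `r - 1`, so certain modular powers
are 1.  This fails for 196 pairs `(q, d)`, which leaves finitely many exponents for each prime;
their combinations are examined by a verified depth first search with divisibility tests.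
-/

set_option autoImplicit false

namespace Pool.Agent.Results.MP_ed2bed_nt.SmoothList

/-- the 36 solutions found by Selfridge, Hoffman and Schroeppel, by Raines and by Cohen -/
def known : List ℕ := [
  1, 2, 2 ^ 3, 2 ^ 2 * 3, 2 ^ 7, 2 ^ 4 * 3 * 5, 2 ^ 4 * 3 ^ 2 * 5, 2 ^ 8 * 3 ^ 3, 2 ^ 15,
  2 ^ 5 * 3 ^ 4 * 5 * 11, 2 ^ 5 * 3 ^ 4 * 5 ^ 2 * 11, 2 ^ 8 * 3 ^ 4 * 5 * 11,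
  2 ^ 9 * 3 * 5 ^ 2 * 31, 2 ^ 10 * 3 ^ 3 * 11 ^ 2, 2 ^ 9 * 3 ^ 2 * 5 ^ 2 * 31,
  2 ^ 8 * 3 ^ 4 * 5 ^ 2 * 11, 2 ^ 5 * 3 ^ 6 * 7 ^ 2 * 13, 2 ^ 6 * 3 ^ 6 * 7 ^ 2 * 13,
  2 ^ 12 * 3 ^ 3 * 5 * 7 * 13, 2 ^ 8 * 3 ^ 6 * 7 ^ 2 * 13, 2 ^ 31,
  2 ^ 9 * 3 ^ 4 * 5 ^ 2 * 11 ^ 2 * 31, 2 ^ 13 * 3 ^ 7 * 5 * 7 ^ 2,
  2 ^ 13 * 3 ^ 7 * 5 ^ 2 * 7 ^ 2, 2 ^ 13 * 3 ^ 3 * 5 ^ 4 * 7 ^ 3, 2 ^ 13 * 3 ^ 8 * 5 * 7 ^ 3,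
  2 ^ 13 * 3 ^ 6 * 5 * 7 ^ 3 * 13, 2 ^ 13 * 3 ^ 3 * 5 ^ 4 * 7 ^ 4,
  2 ^ 13 * 3 ^ 8 * 5 ^ 2 * 7 ^ 3, 2 ^ 13 * 3 ^ 6 * 5 ^ 2 * 7 ^ 3 * 13,
  2 ^ 13 * 3 ^ 5 * 5 ^ 4 * 7 ^ 4, 2 ^ 21 * 3 ^ 3 * 5 * 11 ^ 3 * 31,
  2 ^ 21 * 3 ^ 3 * 5 ^ 2 * 11 ^ 3 * 31, 2 ^ 21 * 3 ^ 5 * 5 * 11 ^ 3 * 31,
  2 ^ 21 * 3 ^ 5 * 5 ^ 2 * 11 ^ 3 * 31, 2 ^ 24 * 3 ^ 9 * 5 ^ 7 * 11 * 13]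

/-- solutions number 1 to 14 -/
def solsA : List ℕ := [
  1, 2, 2 ^ 3, 2 ^ 2 * 3, 2 ^ 7, 2 ^ 4 * 3 * 5, 2 ^ 4 * 3 ^ 2 * 5, 2 ^ 8 * 3 ^ 3, 2 ^ 15,
  2 ^ 5 * 3 ^ 4 * 5 * 11, 2 ^ 5 * 3 ^ 4 * 5 ^ 2 * 11, 2 ^ 8 * 3 ^ 4 * 5 * 11,
  2 ^ 9 * 3 * 5 ^ 2 * 31, 2 ^ 10 * 3 ^ 3 * 11 ^ 2]

/-- solutions number 15 to 28 -/
def solsB : List ℕ := [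
  2 ^ 9 * 3 ^ 2 * 5 ^ 2 * 31, 2 ^ 8 * 3 ^ 4 * 5 ^ 2 * 11, 2 ^ 5 * 3 ^ 6 * 7 ^ 2 * 13,
  2 ^ 6 * 3 ^ 6 * 7 ^ 2 * 13, 2 ^ 12 * 3 ^ 3 * 5 * 7 * 13, 2 ^ 8 * 3 ^ 6 * 7 ^ 2 * 13, 2 ^ 31,
  2 ^ 9 * 3 ^ 4 * 5 ^ 2 * 11 ^ 2 * 31, 2 ^ 13 * 3 ^ 7 * 5 * 7 ^ 2,
  2 ^ 13 * 3 ^ 7 * 5 ^ 2 * 7 ^ 2, 2 ^ 13 * 3 ^ 3 * 5 ^ 4 * 7 ^ 3, 2 ^ 13 * 3 ^ 8 * 5 * 7 ^ 3,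
  2 ^ 13 * 3 ^ 6 * 5 * 7 ^ 3 * 13, 2 ^ 13 * 3 ^ 3 * 5 ^ 4 * 7 ^ 4]

/-- solutions number 29 to 42 -/
def solsC : List ℕ := [
  2 ^ 13 * 3 ^ 8 * 5 ^ 2 * 7 ^ 3, 2 ^ 13 * 3 ^ 6 * 5 ^ 2 * 7 ^ 3 * 13,
  2 ^ 13 * 3 ^ 5 * 5 ^ 4 * 7 ^ 4, 2 ^ 21 * 3 ^ 3 * 5 * 11 ^ 3 * 31,
  2 ^ 19 * 3 ^ 3 * 5 ^ 6 * 7 * 31, 2 ^ 21 * 3 ^ 3 * 5 ^ 2 * 11 ^ 3 * 31,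
  2 ^ 21 * 3 ^ 5 * 5 * 11 ^ 3 * 31, 2 ^ 21 * 3 ^ 5 * 5 ^ 2 * 11 ^ 3 * 31,
  2 ^ 17 * 3 ^ 13 * 5 * 7 ^ 2 * 13 ^ 2 * 19, 2 ^ 17 * 3 ^ 13 * 5 ^ 2 * 7 ^ 2 * 13 ^ 2 * 19,
  2 ^ 24 * 3 ^ 9 * 5 ^ 7 * 11 * 13, 2 ^ 17 * 3 ^ 10 * 5 ^ 5 * 7 ^ 3 * 11 ^ 2 * 19,
  2 ^ 26 * 3 ^ 13 * 5 * 7 ^ 2 * 13 ^ 2 * 19, 2 ^ 17 * 3 ^ 10 * 5 ^ 5 * 7 ^ 4 * 11 ^ 2 * 19]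

/-- solutions number 43 to 56 -/
def solsD : List ℕ := [
  2 ^ 26 * 3 ^ 13 * 5 ^ 2 * 7 ^ 2 * 13 ^ 2 * 19, 2 ^ 28 * 3 ^ 7 * 5 ^ 5 * 7 * 19 * 29 ^ 3,
  2 ^ 26 * 3 ^ 10 * 5 ^ 5 * 7 ^ 3 * 11 ^ 2 * 19, 2 ^ 26 * 3 ^ 10 * 5 ^ 5 * 7 ^ 4 * 11 ^ 2 * 19,
  2 ^ 24 * 3 ^ 10 * 5 ^ 7 * 7 ^ 2 * 11 ^ 2 * 13 * 19,
  2 ^ 25 * 3 ^ 11 * 5 ^ 6 * 7 ^ 3 * 13 ^ 2 * 31, 2 ^ 28 * 3 ^ 9 * 5 ^ 5 * 7 * 11 * 19 * 29 ^ 3,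
  2 ^ 24 * 3 ^ 9 * 5 ^ 9 * 7 ^ 2 * 11 ^ 2 * 13 * 19,
  2 ^ 25 * 3 ^ 11 * 5 ^ 6 * 7 ^ 4 * 13 ^ 2 * 31,
  2 ^ 28 * 3 ^ 11 * 5 ^ 3 * 7 ^ 2 * 13 * 19 * 29 ^ 3,
  2 ^ 27 * 3 ^ 11 * 5 ^ 3 * 7 ^ 6 * 13 ^ 4 * 17 * 29,
  2 ^ 28 * 3 ^ 14 * 5 ^ 3 * 7 ^ 2 * 11 * 13 * 19 ^ 2 * 29 ^ 3,
  2 ^ 27 * 3 ^ 11 * 5 ^ 3 * 7 ^ 6 * 13 ^ 4 * 17 ^ 2 * 29,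
  2 ^ 25 * 3 ^ 17 * 5 ^ 3 * 7 ^ 5 * 13 ^ 4 * 17 * 19]

/-- solutions number 57 to 70 -/
def solsE : List ℕ := [
  2 ^ 29 * 3 ^ 13 * 5 ^ 7 * 7 ^ 3 * 11 * 13 ^ 4 * 17,
  2 ^ 25 * 3 ^ 18 * 5 ^ 5 * 7 ^ 5 * 13 ^ 2 * 19 ^ 3,
  2 ^ 25 * 3 ^ 17 * 5 ^ 3 * 7 ^ 5 * 13 ^ 4 * 17 ^ 2 * 19,
  2 ^ 29 * 3 ^ 13 * 5 ^ 7 * 7 ^ 3 * 11 * 13 ^ 4 * 17 ^ 2,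
  2 ^ 29 * 3 ^ 10 * 5 ^ 14 * 7 ^ 3 * 11 ^ 4 * 23 * 29 * 31,
  2 ^ 29 * 3 ^ 10 * 5 ^ 14 * 7 ^ 4 * 11 ^ 4 * 23 * 29 * 31,
  2 ^ 35 * 3 ^ 21 * 5 ^ 7 * 7 ^ 2 * 11 ^ 4 * 13 ^ 2 * 19 * 23,
  2 ^ 43 * 3 ^ 18 * 5 ^ 5 * 7 ^ 3 * 11 ^ 5 * 19 ^ 3 * 31,
  2 ^ 43 * 3 ^ 18 * 5 ^ 5 * 7 ^ 4 * 11 ^ 5 * 19 ^ 3 * 31,
  2 ^ 43 * 3 ^ 18 * 5 ^ 3 * 7 ^ 5 * 11 ^ 5 * 13 * 19 ^ 4 * 31,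
  2 ^ 35 * 3 ^ 21 * 5 ^ 8 * 7 ^ 6 * 11 ^ 4 * 13 ^ 4 * 17 * 19 * 23 ^ 2,
  2 ^ 54 * 3 ^ 23 * 5 ^ 8 * 7 * 11 ^ 5 * 17 * 19 * 23 * 29 * 31,
  2 ^ 35 * 3 ^ 21 * 5 ^ 8 * 7 ^ 6 * 11 ^ 4 * 13 ^ 4 * 17 ^ 2 * 19 * 23 ^ 2,
  2 ^ 54 * 3 ^ 23 * 5 ^ 8 * 7 * 11 ^ 5 * 17 ^ 2 * 19 * 23 * 29 * 31]

/-- solutions number 71 to 82 -/
def solsF : List ℕ := [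
  2 ^ 54 * 3 ^ 23 * 5 ^ 11 * 7 ^ 3 * 11 ^ 5 * 13 * 17 * 29 * 31,
  2 ^ 53 * 3 ^ 29 * 5 ^ 11 * 7 ^ 3 * 11 * 13 * 17 * 19 ^ 3 * 31,
  2 ^ 54 * 3 ^ 23 * 5 ^ 11 * 7 ^ 4 * 11 ^ 5 * 13 * 17 * 29 * 31,
  2 ^ 54 * 3 ^ 23 * 5 ^ 11 * 7 ^ 3 * 11 ^ 5 * 13 * 17 ^ 2 * 29 * 31,
  2 ^ 53 * 3 ^ 29 * 5 ^ 11 * 7 ^ 4 * 11 * 13 * 17 * 19 ^ 3 * 31,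
  2 ^ 53 * 3 ^ 29 * 5 ^ 11 * 7 ^ 3 * 11 * 13 * 17 ^ 2 * 19 ^ 3 * 31,
  2 ^ 54 * 3 ^ 23 * 5 ^ 11 * 7 ^ 4 * 11 ^ 5 * 13 * 17 ^ 2 * 29 * 31,
  2 ^ 53 * 3 ^ 29 * 5 ^ 11 * 7 ^ 4 * 11 * 13 * 17 ^ 2 * 19 ^ 3 * 31,
  2 ^ 53 * 3 ^ 27 * 5 ^ 8 * 7 ^ 9 * 13 ^ 2 * 17 * 19 ^ 5 * 23 * 31,
  2 ^ 53 * 3 ^ 27 * 5 ^ 8 * 7 ^ 9 * 13 ^ 2 * 17 ^ 2 * 19 ^ 5 * 23 * 31,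
  2 ^ 53 * 3 ^ 29 * 5 ^ 11 * 7 ^ 9 * 11 ^ 2 * 13 * 17 * 19 ^ 5 * 31,
  2 ^ 53 * 3 ^ 29 * 5 ^ 11 * 7 ^ 9 * 11 ^ 2 * 13 * 17 ^ 2 * 19 ^ 5 * 31]

/-- the 82 solutions without prime factors above 31, in increasing order -/
def sols : List ℕ :=
  solsA ++ solsB ++ solsC ++ solsD ++ solsE ++ solsF

lemma sols_eq : sols = Pool.Agent.SmS.D31.solsN := by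
  decide +kernel

theorem result : known.Nodup ∧ known.length = 36 ∧ (∀ n ∈ known, n ∈ sols) ∧
    sols.Nodup ∧ sols.length = 82 ∧
    ∀ n : ℕ, (0 < n ∧ Nat.totient (ArithmeticFunction.sigma 1 n) = n ∧
      ∀ p : ℕ, p.Prime → p ∣ n → p ≤ 31) ↔ n ∈ sols := by
  refine ⟨by decide +kernel, by decide +kernel, by decide +kernel, by decide +kernel,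
    by decide +kernel, fun n => ?_⟩
  rw [sols_eq, ← Pool.Agent.SmS.D31.main n]
  unfold Pool.Agent.SmS.Sol
  tauto

end Pool.Agent.Results.MP_ed2bed_nt.SmoothList
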